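import Pool.Agent.ShghR.MultS
import Pool.Agent.ShghE.CurveDefs

/-!
# Generic points over an algebraically closed extension
-/

namespace ShghP

open MvPolynomial ShghE ShghR

theorem exists_ext_aux.{u} {k : Type u} [Field k] (A L : Type u) [CommRing A] [Algebra k A]
    [Field L] [Algebra A L] [Algebra k L] [IsScalarTower k A L] [IsFractionRing A L] {ι : Type*}
    (x : ι → A) (hx : AlgebraicIndependent k x) :
    ∃ (K1 : Type u) (_ : Field K1) (_ : Algebra k K1), IsAlgClosed K1 ∧
      ∃ y : ι → K1, AlgebraicIndependent k y := by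
  refine ⟨AlgebraicClosure L, inferInstance, inferInstance, inferInstance,
    (IsScalarTower.toAlgHom k L (AlgebraicClosure L)).comp (IsScalarTower.toAlgHom k A L) ∘ x, ?_⟩
  refine hx.map' ?_
  rw [AlgHom.coe_comp]
  exact (algebraMap L (AlgebraicClosure L)).injective.comp (IsFractionRing.injective A L)

theorem exists_ext.{u} (k : Type u) [Field k] (r : ℕ) :
    ∃ (K1 : Type u) (_ : Field K1) (_ : Algebra k K1), IsAlgClosed K1 ∧
      ∃ R : Fin r → Fin 2 → K1,
        AlgebraicIndependent k (fun ij : Fin r × Fin 2 => R ij.1 ij.2) := by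
  obtain ⟨K1, h1, h2, h3, y, hy⟩ := exists_ext_aux (MvPolynomial (Fin r × Fin 2) k)
    (FractionRing (MvPolynomial (Fin r × Fin 2) k)) _
    (MvPolynomial.algebraicIndependent_X (Fin r × Fin 2) k)
  exact ⟨K1, h1, h2, h3, fun i j => y (i, j), hy⟩

/-- The cubic does not vanish at a generic point. -/
theorem Geq_generic {k K1 : Type*} [Field k] [Field K1] [Algebra k K1] {r : ℕ}
    (R : Fin r → Fin 2 → K1)
    (hR : AlgebraicIndependent k (fun ij : Fin r × Fin 2 => R ij.1 ij.2)) (i : Fin r) :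
    Geq K1 ∉ ptIdeal (R i 0) (R i 1) := by
  intro h
  have h1 : eval (fun j => R i j) (Geq K1) = 0 := by
    have h2 : ptIdeal (R i 0) (R i 1) ≤ RingHom.ker (eval (fun j => R i j)) := by
      unfold ptIdeal
      rw [Ideal.span_le]
      rintro _ (rfl | rfl) <;> simp [RingHom.mem_ker]
    exact h2 h
  have h3 : aeval (fun ij : Fin r × Fin 2 => R ij.1 ij.2)
      (X (i, 1) ^ 2 - X (i, 0) ^ 3 - X (i, 0) : MvPolynomial (Fin r × Fin 2) k) = 0 := by
    simpa [Geq] using h1
  have h4 : (X (i, 1) ^ 2 - X (i, 0) ^ 3 - X (i, 0) : MvPolynomial (Fin r × Fin 2) k) = 0 :=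
    hR (by rw [h3, map_zero])
  have h5 := congrArg (eval (fun ij : Fin r × Fin 2 => if ij.2 = 1 then (1 : k) else 0)) h4
  simp at h5

theorem colonU {K : Type*} [Field K] {a b : K} (h : Geq K ∉ ptIdeal a b) (w m : ℕ)
    {g : MvPolynomial (Fin 2) K} (hg : Geq K ^ w * g ∈ ptIdeal a b ^ m) : g ∈ ptIdeal a b ^ m := by
  induction w with
  | zero => simpa using hg
  | succ w ih =>
    apply ih
    rw [pow_succ', mul_assoc] at hg
    obtain ⟨m1, m2, h1, h2, h3⟩ := mem_split a b hg
    have h4 : m1 = 0 := by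
      by_contra h5
      exact h (Ideal.pow_le_self h5 h2)
    subst h4
    exact Ideal.pow_le_pow_right (by omega) h3

end ShghP
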