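import Pool.Agent.ShghE.CurveDefs

/-!
# Unfolding for `10 + r` generic points: indices and definitions

The points `0, …, 8` (`ix`), `9` (`il`) are active, the points `10, …, 9 + r` (`ip`) are passive.
-/

namespace ShghP

open MvPolynomial ShghE

/-- The first nine indices. -/
def ix (r : ℕ) (i : Fin 9) : Fin (10 + r) := Fin.castAdd r i.castSucc

/-- The tenth index. -/
def il (r : ℕ) : Fin (10 + r) := Fin.castAdd r (Fin.last 9)

/-- The passive indices. -/
def ip {r : ℕ} (l : Fin r) : Fin (10 + r) := Fin.natAdd 10 l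

theorem ixU_sum {r : ℕ} {M : Type*} [AddCommMonoid M] (f : Fin (10 + r) → M) :
    ∑ i, f i = ∑ i : Fin 9, f (ix r i) + f (il r) + ∑ l : Fin r, f (ip l) := by
  rw [Fin.sum_univ_add, Fin.sum_univ_castSucc]
  rfl

theorem ixU_cases {r : ℕ} (p : Fin (10 + r) → Prop) (h1 : ∀ i, p (ix r i)) (h2 : p (il r))
    (h3 : ∀ l, p (ip l)) (i : Fin (10 + r)) : p i := by
  refine Fin.addCases (fun a => ?_) (fun l => h3 l) i
  exact Fin.lastCases (motive := fun a => p (Fin.castAdd r a)) h2 (fun i => h1 i) a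

theorem ix_ne_il {r : ℕ} (i : Fin 9) : ix r i ≠ il r := by
  intro h
  have h1 := Fin.castAdd_injective _ _ h
  exact (Fin.castSucc_lt_last i).ne h1

theorem ip_ne_il {r : ℕ} (l : Fin r) : ip l ≠ il r := by
  intro h
  have h1 := congrArg Fin.val h
  simp [ip, il] at h1
  omega

/-- A function on `Fin (10 + r)` with given values. -/
def mkU {r : ℕ} {α : Type*} (a : Fin 9 → α) (b : α) (c : Fin r → α) : Fin (10 + r) → α :=
  Fin.append (Fin.snoc (α := fun _ => α) a b) c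

theorem mkU_ix {r : ℕ} {α : Type*} (a : Fin 9 → α) (b : α) (c : Fin r → α) (i : Fin 9) :
    mkU a b c (ix r i) = a i := by
  unfold mkU ix
  rw [Fin.append_left]
  exact Fin.snoc_castSucc (α := fun _ => α) _ _ _

theorem mkU_il {r : ℕ} {α : Type*} (a : Fin 9 → α) (b : α) (c : Fin r → α) :
    mkU a b c (il r) = b := by
  unfold mkU il
  rw [Fin.append_left]
  exact Fin.snoc_last (α := fun _ => α) _ _

theorem mkU_ip {r : ℕ} {α : Type*} (a : Fin 9 → α) (b : α) (c : Fin r → α) (l : Fin r) :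
    mkU a b c (ip l) = c l := by
  unfold mkU ip
  rw [Fin.append_right]

/-- `d H - Σ m_i E_i` is nef on the blow-up of the plane at the points `P i`. -/
def IsNefS {k : Type*} [Field k] {s : ℕ} (P : Fin s → Fin 2 → k) (d : ℝ) (m : Fin s → ℝ) : Prop :=
  (∀ i, 0 ≤ m i) ∧ ∀ (f : MvPolynomial (Fin 2) k) (δ : ℕ) (μ : Fin s → ℕ), f ≠ 0 →
    f.totalDegree ≤ δ → (∀ i, f ∈ ptIdeal (P i 0) (P i 1) ^ μ i) → ∑ i, m i * μ i ≤ d * δ

/-- `d H - Σ m_i E_i` is nonnegative on all classes of positive expected dimension. -/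
def NumNefS {s : ℕ} (d : ℝ) (m : Fin s → ℝ) : Prop :=
  ∀ (a : ℕ) (ν : Fin s → ℕ), ∑ i, ν i * (ν i + 1) < (a + 1) * (a + 2) → ∑ i, m i * ν i ≤ d * a

/-- Independence up to `B` of `9 + r` elements, modulo `T`. -/
def IndepU {A : Type*} [AddCommGroup A] {r : ℕ} (p : Fin 9 → A) (q : Fin r → A) (T : A) (B : ℕ) :
    Prop :=
  ∀ (c : Fin 9 → ℤ) (c' : Fin r → ℤ), (∀ i, |c i| ≤ B) → (∀ i, |c' i| ≤ B) → ∀ ε : ℤ,
    ∑ i, c i • p i + ∑ i, c' i • q i = ε • T → c = 0 ∧ c' = 0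

/-- `m_i` for `i ∉ J`, `- m_i` for `i ∈ J`. -/
noncomputable def sgnU {r : ℕ} (J : Finset (Fin 9)) (m : Fin (10 + r) → ℝ) (i : Fin 9) : ℝ :=
  if i ∈ J then - m (ix r i) else m (ix r i)

end ShghP
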