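import Pool.Agent.ShghE.Torsion
import Pool.Agent.ShghE.Main
import Pool.Agent.ShghP.Ix

/-!
# Independent points
-/

namespace ShghP

open ShghE WeierstrassCurve WeierstrassCurve.Affine

variable {k : Type*} [Field k]

/-- Balanced digits: a vanishing sum in base `N > 2 B` has vanishing digits. -/
private theorem IndepU_digits (N B : ℤ) (hN : B < N) (hN0 : 0 < N) :
    ∀ (n : ℕ) (c : Fin n → ℤ), (∀ i, |c i| ≤ B) → ∑ i, c i * N ^ (i : ℕ) = 0 → c = 0 := by
  intro n
  induction n with
  | zero => intro c _ _; exact Subsingleton.elim _ _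
  | succ n ih =>
    intro c hc hsum
    rw [Fin.sum_univ_succ] at hsum
    have h1 : ∑ i : Fin n, c i.succ * N ^ ((i.succ : Fin (n + 1)) : ℕ) =
        N * ∑ i : Fin n, c i.succ * N ^ (i : ℕ) := by
      rw [Finset.mul_sum]
      refine Finset.sum_congr rfl fun i _ => ?_
      rw [Fin.val_succ, pow_succ]
      ring
    rw [h1] at hsum
    simp only [Fin.val_zero, pow_zero, mul_one] at hsum
    have h0 : c 0 = 0 := by
      apply Int.eq_zero_of_abs_lt_dvd (m := N)
      · exact ⟨- ∑ i : Fin n, c i.succ * N ^ (i : ℕ), by linear_combination hsum⟩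
      · exact lt_of_le_of_lt (hc 0) hN
    have h2 : (fun i : Fin n => c i.succ) = 0 := by
      apply ih _ (fun i => hc i.succ)
      rw [h0, zero_add] at hsum
      exact (mul_eq_zero.1 hsum).resolve_left hN0.ne'
    funext i
    refine Fin.cases h0 (fun j => ?_) i
    exact congrFun h2 j

private theorem IndepU_bound (N B : ℤ) (hB : 0 ≤ B) (hN : N = 2 * B + 1) :
    ∀ (n : ℕ) (c : Fin n → ℤ), (∀ i, |c i| ≤ B) → 2 * |∑ i, c i * N ^ (i : ℕ)| + 1 ≤ N ^ n := by
  intro n
  induction n with
  | zero => intro c _; simp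
  | succ n ih =>
    intro c hc
    rw [Fin.sum_univ_castSucc]
    have h1 := ih (fun i => c i.castSucc) (fun i => hc _)
    have h2 : |∑ i : Fin n, c i.castSucc * N ^ ((i.castSucc : Fin (n + 1)) : ℕ) +
        c (Fin.last n) * N ^ ((Fin.last n : Fin (n + 1)) : ℕ)| ≤
        |∑ i : Fin n, c i.castSucc * N ^ (i : ℕ)| + B * N ^ n := by
      refine (abs_add_le _ _).trans (add_le_add le_rfl ?_)
      rw [abs_mul, Fin.val_last, abs_of_nonneg (pow_nonneg (by omega) n : (0 : ℤ) ≤ N ^ n)]
      exact mul_le_mul_of_nonneg_right (hc _) (pow_nonneg (by omega) n)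
    have h3 : N ^ (n + 1) = N ^ n + 2 * B * N ^ n := by rw [pow_succ, hN]; ring
    rw [h3]
    linarith

/-- `n` points which are independent up to `B`, also modulo the 2-torsion point `T`. -/
theorem exists_indepN [IsAlgClosed k] [DecidableEq k] (h2 : (2 : k) ≠ 0) (T : (E0 k).Point)
    (hT : T + T = 0) (B n : ℕ) :
    ∃ P : Fin n → (E0 k).Point, ∀ c : Fin n → ℤ, (∀ i, |c i| ≤ B) → ∀ ε : ℤ,
      ∑ i, c i • P i = ε • T → c = 0 := by
  set N : ℤ := 2 * (B : ℤ) + 1 with hN
  obtain ⟨U, hU⟩ := exists_large_order (k := k) h2 ((2 * B + 1) ^ n)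
  refine ⟨fun i => N ^ (i : ℕ) • U, fun c hc ε hsum => ?_⟩
  have h1 : (∑ i, c i * N ^ (i : ℕ)) • U = ε • T := by
    rw [Finset.sum_smul, ← hsum]
    refine Finset.sum_congr rfl fun i _ => ?_
    rw [mul_smul]
  have h3 : (2 * ∑ i, c i * N ^ (i : ℕ)) • U = 0 := by
    rw [mul_smul, h1, smul_comm, two_smul, hT, smul_zero]
  have h4 : (2 * ∑ i, c i * N ^ (i : ℕ)).natAbs • U = 0 := by
    rcases Int.natAbs_eq (2 * ∑ i, c i * N ^ (i : ℕ)) with h | h
    · rw [h, natCast_zsmul] at h3
      exact h3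
    · rw [h, neg_smul, neg_eq_zero, natCast_zsmul] at h3
      exact h3
  have h5 := IndepU_bound N B (by positivity) hN n c hc
  have h6 : ∑ i, c i * N ^ (i : ℕ) = 0 := by
    by_contra hne
    refine hU _ ?_ ?_ h4
    · have : (2 * ∑ i, c i * N ^ (i : ℕ)) ≠ 0 := mul_ne_zero two_ne_zero hne
      have := Int.natAbs_pos.2 this
      omega
    · have h7 : ((2 * ∑ i, c i * N ^ (i : ℕ)).natAbs : ℤ) ≤ (((2 * B + 1) ^ n : ℕ) : ℤ) := by
        rw [Int.natCast_natAbs, abs_mul, abs_of_pos (by norm_num : (0 : ℤ) < 2)]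
        have h8 : (((2 * B + 1) ^ n : ℕ) : ℤ) = N ^ n := by
          rw [hN]; push_cast; ring
        rw [h8]
        linarith
      exact_mod_cast h7
  exact IndepU_digits N B (by omega) (by omega) n c hc h6

/-- `9 + r` points which are independent up to `B`, also modulo the 2-torsion point `T`. -/
theorem exists_indepU [IsAlgClosed k] [DecidableEq k] (h2 : (2 : k) ≠ 0) (T : (E0 k).Point)
    (hT : T + T = 0) (B r : ℕ) :
    ∃ (p : Fin 9 → (E0 k).Point) (q : Fin r → (E0 k).Point), IndepU p q T B := by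
  obtain ⟨P, hP⟩ := exists_indepN h2 T hT B (9 + r)
  refine ⟨fun i => P (Fin.castAdd r i), fun i => P (Fin.natAdd 9 i), fun c c' hc hc' ε h => ?_⟩
  have h1 := hP (Fin.append c c') (fun i => ?_) ε ?_
  · constructor
    · funext i
      have h3 := congrFun h1 (Fin.castAdd r i)
      rwa [Fin.append_left] at h3
    · funext i
      have h3 := congrFun h1 (Fin.natAdd 9 i)
      rwa [Fin.append_right] at h3
  · refine Fin.addCases (fun a => ?_) (fun l => ?_) i
    · rw [Fin.append_left]
      exact hc a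
    · rw [Fin.append_right]
      exact hc' l
  · rw [Fin.sum_univ_add, ← h]
    simp only [Fin.append_left, Fin.append_right]

variable {A : Type*} [AddCommGroup A] {r : ℕ} {p : Fin 9 → A} {q : Fin r → A} {T : A} {B : ℕ}

theorem IndepU.indep (h : IndepU p q T B) : Indep p T B := by
  intro c hc ε hs
  refine (h c 0 hc (fun i => ?_) ε ?_).1
  · simp
  · simpa using hs

theorem IndepU.mono (h : IndepU p q T B) {B' : ℕ} (hB : B' ≤ B) : IndepU p q T B' := by
  have h1 : (B' : ℤ) ≤ B := by exact_mod_cast hB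
  exact fun c c' hc hc' ε hs => h c c' (fun i => (hc i).trans h1) (fun i => (hc' i).trans h1) ε hs

/-- The passive points are not zero. -/
theorem IndepU.ne_zero (h : IndepU p q T B) (hB : 1 ≤ B) (i : Fin r) : q i ≠ 0 := by
  intro e
  have := (h 0 (Pi.single i 1) (fun j => by simp) (fun j => ?_) 0 ?_).2
  · simpa using congrFun this i
  · by_cases hj : j = i
    · subst hj; simpa using hB
    · simp [hj]
  · simp only [Pi.zero_apply, zero_smul, Finset.sum_const_zero, zero_add]
    rw [Finset.sum_eq_single i]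
    · simp [e]
    · intro j _ hj
      simp [hj]
    · simp

end ShghP
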