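import Pool.Agent.ShghE.CurveDefs

/-!
# The points of the cubic over an extension
-/

namespace ShghP

open ShghE WeierstrassCurve WeierstrassCurve.Affine

theorem PtMap_curve {k K1 : Type*} [Field k] [Field K1] [Algebra k K1] :
    (E0 k).baseChange K1 = E0 K1 := by
  ext <;> simp [WeierstrassCurve.baseChange, WeierstrassCurve.map]

theorem PtMap_curve' {k : Type*} [Field k] : (E0 k).baseChange k = E0 k := by
  ext <;> simp [WeierstrassCurve.baseChange, WeierstrassCurve.map]

theorem PtMap_cast {K : Type*} [Field K] [DecidableEq K] {W W' : WeierstrassCurve.Affine K}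
    (h : W = W') : ∃ φ : W.Point ≃+ W'.Point, ∀ (a b : K) (hab : W.Nonsingular a b),
      ∃ h' : W'.Nonsingular a b, φ (.some a b hab) = .some a b h' := by
  subst h
  exact ⟨AddEquiv.refl _, fun a b hab => ⟨hab, rfl⟩⟩

theorem PtMap_nonsingular {k K1 : Type*} [Field k] [Field K1] [Algebra k K1] {a b : k}
    (h : (E0 k).Nonsingular a b) :
    (E0 K1).Nonsingular (algebraMap k K1 a) (algebraMap k K1 b) := by
  classical
  have h1 := ((E0 k).baseChange_nonsingular (f := Algebra.ofId k K1)
    (algebraMap k K1).injective a b).2 (by rw [PtMap_curve']; exact h)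
  rw [PtMap_curve] at h1
  exact h1

/-- The injective homomorphism of the groups of points. -/
theorem exists_ptMap (k K1 : Type*) [Field k] [Field K1] [Algebra k K1] [DecidableEq k]
    [DecidableEq K1] :
    ∃ φ : (E0 k).Point →+ (E0 K1).Point, Function.Injective φ ∧
      ∀ (a b : k) (h : (E0 k).Nonsingular a b),
        φ (.some a b h) = .some (algebraMap k K1 a) (algebraMap k K1 b) (PtMap_nonsingular h) := by
  obtain ⟨φ1, h1⟩ := PtMap_cast (K := k) (PtMap_curve' (k := k)).symm
  obtain ⟨φ2, h2⟩ := PtMap_cast (K := K1) (PtMap_curve (k := k) (K1 := K1))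
  refine ⟨φ2.toAddMonoidHom.comp
    ((WeierstrassCurve.Affine.Point.map (W' := E0 k) (Algebra.ofId k K1)).comp
      φ1.toAddMonoidHom), ?_, ?_⟩
  · intro x y h
    apply φ1.injective
    apply WeierstrassCurve.Affine.Point.map_injective (W' := E0 k) (f := Algebra.ofId k K1)
    exact φ2.injective h
  · intro a b h
    obtain ⟨h3, h4⟩ := h1 a b h
    have h5 : WeierstrassCurve.Affine.Point.map (W' := E0 k) (Algebra.ofId k K1)
        (.some a b h3) = _ := WeierstrassCurve.Affine.Point.map_some _ h3
    obtain ⟨h6, h7⟩ := h2 _ _ ((((E0 k).baseChange_nonsingular (f := Algebra.ofId k K1)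
      (algebraMap k K1).injective a b).2 h3))
    change φ2 (WeierstrassCurve.Affine.Point.map (W' := E0 k) (Algebra.ofId k K1)
      (φ1 (.some a b h))) = _
    rw [h4, h5]
    exact h7

end ShghP
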