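import Pool.Agent.ShghR.TransferR

/-!
# Transfer to a family with one moving point
-/

namespace ShghP

open MvPolynomial ShghE ShghR

/-- As `ShghR.transfer_special0`, for `s` points, the point `i0` being the moving point `(- v0 ξ, 0)`, and
over an arbitrary target field. -/
theorem transferU {F k k' : Type*} [Field F] [Field k] [Field k'] [Algebra F k] [Algebra F k']
    {s : ℕ} (P : Fin s → Fin 2 → k)
    (hP : AlgebraicIndependent F (fun ij : Fin s × Fin 2 => P ij.1 ij.2)) (i0 : Fin s)
    (Q : Fin s → Fin 2 → k') (v0 : k') (δ : ℕ) (μ : Fin s → ℕ)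
    (h : ∃ f : MvPolynomial (Fin 2) k, f ≠ 0 ∧ f.totalDegree ≤ δ ∧
      ∀ i, f ∈ ptIdeal (P i 0) (P i 1) ^ μ i) :
    ∃ f : Polynomial (MvPolynomial (Fin 2) k'), f.coeff 0 ≠ 0 ∧
      (∀ l, (f.coeff l).totalDegree ≤ δ) ∧
      (∀ l, ∀ i, i ≠ i0 → f.coeff l ∈ ptIdeal (Q i 0) (Q i 1) ^ μ i) ∧
      f ∈ (Ideal.span {Polynomial.C (MvPolynomial.X 0) + Polynomial.C (MvPolynomial.C v0) *
        Polynomial.X, Polynomial.C (MvPolynomial.X 1)} :
        Ideal (Polynomial (MvPolynomial (Fin 2) k'))) ^ μ i0 := by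
  classical
  -- the special points over `k'[ξ]`
  let P' : Fin s → Fin 2 → Polynomial k' :=
    Function.update (fun i j => Polynomial.C (Q i j)) i0 ![-(Polynomial.C v0 * Polynomial.X), 0]
  have hP'1 : ∀ i, i ≠ i0 → ∀ j, P' i j = Polynomial.C (Q i j) := fun i hi j => by
    simp [P', hi]
  have hP'0 : P' i0 = ![-(Polynomial.C v0 * Polynomial.X), 0] := Function.update_self _ _ _
  have hP'2 : P' i0 0 = -(Polynomial.C v0 * Polynomial.X) := by rw [hP'0]; rfl
  have hP'3 : P' i0 1 = 0 := by rw [hP'0]; rfl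
  let K := FractionRing (Polynomial k')
  obtain ⟨c', hc'0, hc'⟩ := tf_system (k' := K) P hP
    (fun i j => algebraMap (Polynomial k') K (P' i j)) δ μ h
  -- clear denominators
  obtain ⟨d, hd⟩ := IsLocalization.exist_integer_multiples_of_finite
    (nonZeroDivisors (Polynomial k')) c'
  choose c hcd using hd
  have hinj : Function.Injective (algebraMap (Polynomial k') K) := IsFractionRing.injective _ _
  have hd0 : algebraMap (Polynomial k') K d ≠ 0 := by
    rw [Ne, map_eq_zero_iff _ hinj]
    exact nonZeroDivisors.coe_ne_zero d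
  have hcd' : ∀ e, algebraMap (Polynomial k') K (c e) = algebraMap (Polynomial k') K d * c' e := by
    intro e
    rw [hcd e, Algebra.smul_def]
  have hc0 : c ≠ 0 := by
    intro h0
    apply hc'0
    ext e
    have h1 := hcd' e
    rw [h0, Pi.zero_apply, map_zero] at h1
    exact (mul_eq_zero.1 h1.symm).resolve_left hd0
  have hc : ∀ i, ∀ x : Fin 2 →₀ ℕ, x.degree < μ i →
      ∑ e : tfS δ, tfM (P' i 0) (P' i 1) e x * c e = 0 := by
    intro i x hx
    apply hinj
    rw [map_zero, map_sum]
    have h1 := hc' i x hx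
    have h2 : ∀ e : tfS δ, algebraMap (Polynomial k') K (tfM (P' i 0) (P' i 1) e x * c e) =
        algebraMap (Polynomial k') K d *
          (tfM (algebraMap (Polynomial k') K (P' i 0)) (algebraMap (Polynomial k') K (P' i 1)) e x *
            c' e) := by
      intro e
      rw [map_mul, ← tfM_map, hcd' e]
      ring
    simp only [h2]
    rw [← Finset.mul_sum, h1, mul_zero]
  -- divide by the largest common power of `ξ`
  obtain ⟨c₁, hc₁0, hc₁⟩ := TransferR_divide c hc0 (fun i x e => tfM (P' i 0) (P' i 1) e x)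
    (fun i x => x.degree < μ i) hc
  -- the polynomial
  let Φ : MvPolynomial (Fin 2) (Polynomial k') →+* Polynomial (MvPolynomial (Fin 2) k') :=
    eval₂Hom (Polynomial.mapRingHom C) (fun i => Polynomial.C (X i))
  let G : MvPolynomial (Fin 2) (Polynomial k') := ∑ e : tfS δ, monomial (e : Fin 2 →₀ ℕ) (c₁ e)
  have hΦmon : ∀ (e : Fin 2 →₀ ℕ) (p : Polynomial k') l,
      (Φ (monomial e p)).coeff l = monomial e (p.coeff l) := by
    intro e p l
    have h1 : Φ (monomial e p) = Polynomial.map C p * Polynomial.C (monomial e 1) := by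
      simp only [Φ]
      rw [coe_eval₂Hom, eval₂_monomial]
      congr 1
      rw [monomial_eq, C_1, one_mul, Finsupp.prod, Finsupp.prod, map_prod]
      simp
    rw [h1, Polynomial.coeff_mul_C, Polynomial.coeff_map, C_mul_monomial, mul_one]
  have hcoeff : ∀ l, (Φ G).coeff l = ∑ e : tfS δ, monomial (e : Fin 2 →₀ ℕ) ((c₁ e).coeff l) := by
    intro l
    simp only [G]
    rw [map_sum, Polynomial.finsetSum_coeff]
    exact Finset.sum_congr rfl fun e _ => hΦmon _ _ _
  refine ⟨Φ G, fun h0 => ?_, fun l => ?_, fun l i hi => ?_, ?_⟩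
  · obtain ⟨e, he⟩ := hc₁0
    apply he
    have h1 := hcoeff 0
    rw [h0] at h1
    have h2 := tf_sum_coeff (fun e => (c₁ e).coeff 0) e
    rw [← h1, coeff_zero] at h2
    exact h2.symm
  · rw [hcoeff]
    exact tf_sum_degree _
  · refine (tf_mem_iff _ _ _ _).2 fun x hx => ?_
    rw [hcoeff, tf_coeff]
    have h1 := congrArg (fun p => Polynomial.coeff p l) (hc₁ i x hx)
    simp only [hP'1 i hi, tfM_map, Polynomial.finsetSum_coeff, Polynomial.coeff_C_mul,
      Polynomial.coeff_zero] at h1
    exact h1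
  · have h1 : G ∈ (Ideal.span {X 0 - C (P' i0 0), X 1 - C (P' i0 1)} :
        Ideal (MvPolynomial (Fin 2) (Polynomial k'))) ^ μ i0 := by
      refine (tf_mem_iff _ _ _ _).2 fun x hx => ?_
      rw [tf_coeff]
      exact hc₁ i0 x hx
    have h2 := Ideal.mem_map_of_mem Φ h1
    rw [Ideal.map_pow] at h2
    refine Ideal.pow_right_mono ?_ _ h2
    rw [Ideal.map_span, Ideal.span_le]
    rintro _ ⟨g, hg, rfl⟩
    rcases hg with rfl | rfl
    · have h3 : Φ (X 0 - C (P' i0 0)) = Polynomial.C (MvPolynomial.X 0) +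
          Polynomial.C (MvPolynomial.C v0) * Polynomial.X := by
        rw [hP'2]
        simp [Φ]
      rw [h3]
      exact Ideal.subset_span (Or.inl rfl)
    · have h3 : Φ (X 1 - C (P' i0 1)) = Polynomial.C (MvPolynomial.X 1) := by
        rw [hP'3]
        simp [Φ]
      rw [h3]
      exact Ideal.subset_span (Or.inr rfl)

end ShghP
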