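import Pool.Agent.ShghM.SetupM
import Pool.Agent.ShghP.TrU
import Pool.Agent.ShghP.PtMap
import Pool.Agent.ShghP.IndepU
import Pool.Agent.ShghP.ExtU

/-!
# The degeneration with passive generic points: data
-/

namespace ShghP

open MvPolynomial ShghE ShghR ShghM WeierstrassCurve WeierstrassCurve.Affine

private theorem SetU_coords {k : Type*} [Field k] {z : (E0 k).Point} (hz : z ≠ 0) :
    ∃ (a b : k) (h : (E0 k).Nonsingular a b), z = .some a b h := by
  rcases z with _ | ⟨a, b, h⟩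
  · exact absurd rfl hz
  · exact ⟨a, b, h, rfl⟩

/-- Model: `ShghM.exists_setup`. -/
theorem exists_setupU {k K1 : Type*} [Field k] [Field K1] [Algebra k K1] [DecidableEq k]
    [DecidableEq K1] [IsAlgClosed K1] (h2 : (2 : K1) ≠ 0) {r : ℕ} (P : Fin (10 + r) → Fin 2 → k)
    (hP : AlgebraicIndependent (⊥ : Subfield k) (fun ij : Fin (10 + r) × Fin 2 => P ij.1 ij.2))
    (f : MvPolynomial (Fin 2) k) (hf : f ≠ 0) (δ : ℕ) (hdeg : f.totalDegree ≤ δ)
    (μ : Fin (10 + r) → ℕ) (hμ : ∀ i, f ∈ ptIdeal (P i 0) (P i 1) ^ μ i) (B : ℕ)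
    (R : Fin r → Fin 2 → K1) (p0 : Fin 9 → (E0 k).Point) (h0 : (E0 k).Nonsingular 0 0)
    (hI0 : Indep p0 (.some 0 0 h0) (B + 1)) (φ : (E0 k).Point →+ (E0 K1).Point)
    (hφ : Function.Injective φ)
    (hφs : ∀ (a b : k) (h : (E0 k).Nonsingular a b),
      φ (.some a b h) = .some (algebraMap k K1 a) (algebraMap k K1 b) (PtMap_nonsingular h)) :
    ∃ S : Setup K1 δ (fun i => μ (Fin.castAdd r i)) B, (∀ i, S.p i = φ (p0 i)) ∧
      ∀ l i, S.F.coeff l ∈ ptIdeal (R i 0) (R i 1) ^ μ (ip i) := by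
  obtain ⟨CD⟩ := exists_curveData2 (k := K1) h2
  have hT : φ (.some 0 0 h0) = CD.E.T := by
    rw [hφs, CD.T_eq]
    rw [Point.some.injEq]
    exact ⟨map_zero _, map_zero _⟩
  obtain ⟨p, hp⟩ : ∃ p : Fin 9 → (E0 K1).Point, p = fun i => φ (p0 i) := ⟨_, rfl⟩
  have hI : Indep p CD.E.T (B + 1) := by
    intro c hc ε h
    refine hI0 c hc ε ?_
    apply hφ
    rw [map_sum, map_zsmul, hT, ← h, hp]
    exact Finset.sum_congr rfl fun i _ => map_zsmul _ _ _
  have hBB : 1 ≤ B + 1 := by omega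
  have hp0 := hI.ne_zero hBB
  have hpT := hI.ne_T hBB
  have hT0 : CD.E.T ≠ 0 := by
    rw [CD.T_eq]
    exact Point.some_ne_zero _
  choose a b hns hpab using fun i => SetU_coords (hp0 i)
  let n : CD.E.Twist :=
    { n := divf 9 (fun _ => -1) p
      fin := divf_fin _ _ _
      deg := by rw [divf_sum]; simp
      nT := divf_eq_zero _ _ _ hT0 (fun i => (hpT i).symm) }
  obtain ⟨v0, hv0, hsym, hsymA⟩ := exists_symA CD.E n h2
  obtain ⟨F0, hF00, hF0d, hF0m, hF0J⟩ :=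
    transferU (k' := K1) P hP (il r) (mkU (fun i => ![a i, b i]) 0 R) v0 δ μ ⟨f, hf, hdeg, hμ⟩
  have hF0 : F0 ≠ 0 := by
    rintro rfl
    exact hF00 (Polynomial.coeff_zero 0)
  obtain ⟨w, gg, hgg, l0, hl0, hl0G⟩ := exists_w F0 hF0
  have hm : ∀ l, ∀ i : Fin 9, F0.coeff l ∈ ptIdeal (a i) (b i) ^ μ (ix r i) := by
    intro l i
    have h := hF0m l (ix r i) (ix_ne_il i)
    rw [mkU_ix] at h
    exact h
  refine ⟨⟨CD, p, n, v0, F0, a, b, hns, hpab, w, gg, ?_, rfl, hv0, hsym, hsymA, hF00, hF0d, hm,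
    hF0J, hgg, ⟨l0, hl0, hl0G⟩⟩, fun i => congrFun hp i, fun l i => ?_⟩
  · intro c hc ε h
    refine hI c (fun i => (hc i).trans ?_) ε h
    exact_mod_cast Nat.le_add_right B 1
  · have h := hF0m l (ip i) (ip_ne_il i)
    rw [mkU_ip] at h
    exact h

end ShghP
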