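import Pool.Agent.ShghE.Transfer

/-!
# Specialization of generic points
-/

namespace ShghP

open MvPolynomial ShghE

/-- The mixed linear system: fixed points `Z` and generic points. -/
noncomputable def trwMat {k : Type*} [Field k] {t r : ℕ} (Z : Fin t → Fin 2 → k) (D : ℕ)
    (c : Fin t → ℕ) (ν : Fin r → ℕ) :
    Matrix (tfRow c ⊕ tfRow ν) (tfS D) (MvPolynomial (Fin r × Fin 2) k) :=
  fun x e => Sum.elim (fun y : tfRow c => tfM (C (Z y.1 0)) (C (Z y.1 1)) e y.2)
    (fun y : tfRow ν => tfM (X (y.1, 0)) (X (y.1, 1)) e y.2) x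

/-- A polynomial over an extension of `k` with multiplicities `c` at points over `k` and `ν` at generic
points specializes to a polynomial over `k` with the multiplicities `ν` at arbitrary points. -/
theorem transferW {k K1 : Type*} [Field k] [Field K1] [Algebra k K1] {t r : ℕ}
    (Z : Fin t → Fin 2 → k) (R : Fin r → Fin 2 → K1)
    (hR : AlgebraicIndependent k (fun ij : Fin r × Fin 2 => R ij.1 ij.2))
    (D : ℕ) (c : Fin t → ℕ) (ν : Fin r → ℕ) (g : MvPolynomial (Fin 2) K1) (hg : g ≠ 0)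
    (hD : g.totalDegree ≤ D)
    (hc : ∀ i, g ∈ ptIdeal (algebraMap k K1 (Z i 0)) (algebraMap k K1 (Z i 1)) ^ c i)
    (hν : ∀ i, g ∈ ptIdeal (R i 0) (R i 1) ^ ν i) (q : Fin r → Fin 2 → k) :
    ∃ g' : MvPolynomial (Fin 2) k, g' ≠ 0 ∧ g'.totalDegree ≤ D ∧
      (∀ i, g' ∈ ptIdeal (Z i 0) (Z i 1) ^ c i) ∧ ∀ i, g' ∈ ptIdeal (q i 0) (q i 1) ^ ν i := by
  classical
  have key := tf_kernel (trwMat Z D c ν)
    (aeval (fun ij : Fin r × Fin 2 => R ij.1 ij.2)).toRingHom hR
    (aeval (fun ij : Fin r × Fin 2 => q ij.1 ij.2) : _ →ₐ[k] k).toRingHom ?_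
  · obtain ⟨a, ha0, ha⟩ := key
    refine ⟨∑ e : tfS D, monomial (e : Fin 2 →₀ ℕ) (a e), fun h0 => ha0 ?_, tf_sum_degree a,
      fun i => ?_, fun i => ?_⟩
    · ext e
      rw [← tf_sum_coeff a e, h0, coeff_zero]
      rfl
    · refine (tf_mem_iff _ _ _ _).2 fun x hx => ?_
      rw [tf_coeff]
      have h1 := ha (Sum.inl ⟨i, ⟨x, by simpa using hx⟩⟩)
      simp only [trwMat, Sum.elim_inl, ← tfM_map] at h1
      simpa using h1
    · refine (tf_mem_iff _ _ _ _).2 fun x hx => ?_
      rw [tf_coeff]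
      have h1 := ha (Sum.inr ⟨i, ⟨x, by simpa using hx⟩⟩)
      simp only [trwMat, Sum.elim_inr, ← tfM_map] at h1
      simpa using h1
  · refine ⟨fun e => g.coeff e, fun h0 => hg ?_, fun x => ?_⟩
    · rw [tf_expand hD]
      refine Finset.sum_eq_zero fun e _ => ?_
      have := congrFun h0 e
      simp only [Pi.zero_apply] at this
      rw [this, monomial_zero]
    · rcases x with ⟨i, x, hx⟩ | ⟨i, x, hx⟩
      · have h1 := (tf_mem_iff _ _ _ _).1 (hc i) x (by simpa using hx)
        rw [tf_expand hD, tf_coeff] at h1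
        simp only [trwMat, Sum.elim_inl, ← tfM_map]
        simpa using h1
      · have h1 := (tf_mem_iff _ _ _ _).1 (hν i) x (by simpa using hx)
        rw [tf_expand hD, tf_coeff] at h1
        simp only [trwMat, Sum.elim_inr, ← tfM_map]
        simpa using h1

end ShghP
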