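import Pool.Agent.ShghM.SecM
import Pool.Agent.ShghM.End9
import Pool.Agent.ShghM.EndM
import Pool.Agent.ShghP.SetU
import Pool.Agent.ShghP.TrW

/-!
# The degeneration with passive generic points
-/

namespace ShghP

open MvPolynomial ShghE ShghR ShghM WeierstrassCurve WeierstrassCurve.Affine

private theorem CoreU_some {k : Type*} [Field k] {a b a' b' : k} (h : (E0 k).Nonsingular a b)
    (h' : (E0 k).Nonsingular a' b') (ea : a = a') (eb : b = b') :
    (Point.some a b h : (E0 k).Point) = Point.some a' b' h' := by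
  subst ea eb
  rfl

private theorem CoreU_coords {k : Type*} [Field k] {z : (E0 k).Point} (hz : z ≠ 0) :
    ∃ (a b : k) (h : (E0 k).Nonsingular a b), z = .some a b h := by
  rcases z with _ | ⟨a, b, h⟩
  · exact absurd rfl hz
  · exact ⟨a, b, h, rfl⟩

/-- Model: `ShghM.coreM`; the family is constructed over an extension `K1` of `k` with generic passive
points, `g0` is then specialized (`transferW`). -/
theorem coreU.{u} {k : Type u} [Field k] [IsAlgClosed k] [DecidableEq k] (h2 : (2 : k) ≠ 0) {r : ℕ}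
    (P : Fin (10 + r) → Fin 2 → k)
    (hP : AlgebraicIndependent (⊥ : Subfield k) (fun ij : Fin (10 + r) × Fin 2 => P ij.1 ij.2))
    (f : MvPolynomial (Fin 2) k) (hf : f ≠ 0) (δ : ℕ) (hdeg : f.totalDegree ≤ δ)
    (μ : Fin (10 + r) → ℕ) (hμ : ∀ i, f ∈ ptIdeal (P i 0) (P i 1) ^ μ i) (J : Finset (Fin 9))
    (g q : ℕ) (hq : 1 ≤ q) (B : ℕ) :
    ∃ (CD : CurveData2 k) (p : Fin 9 → (E0 k).Point) (pp : Fin r → (E0 k).Point)
      (Z : Fin (10 + r) → Fin 2 → k) (hZ : ∀ i, (E0 k).Nonsingular (Z i 0) (Z i 1)),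
      IndepU p pp CD.E.T B ∧
      (∀ i : Fin 9, (Point.some (Z (ix r i) 0) (Z (ix r i) 1) (hZ (ix r i)) :
        (E0 k).Point) = if i ∈ J then ((2 * q ^ 2 : ℕ) : ℤ) • ∑ l, p l - p i else p i) ∧
      (Point.some (Z (il r) 0) (Z (il r) 1) (hZ (il r)) : (E0 k).Point) =
        CD.E.T + ((g * (g + 1) : ℕ) : ℤ) • ∑ i, p i ∧
      (∀ i : Fin r, (Point.some (Z (ip i) 0) (Z (ip i) 1) (hZ (ip i)) : (E0 k).Point) = pp i) ∧
      ∃ (w : ℕ) (g0 : MvPolynomial (Fin 2) k) (c : Fin (10 + r) → ℕ), g0 ≠ 0 ∧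
        g0.totalDegree + 3 * w ≤ δ ∧
        (∀ i, g0 ∈ ptIdeal (Z i 0) (Z i 1) ^ c i) ∧
        (∀ i, c (ip i) = μ (ip i)) ∧
        (∀ i : Fin 9, i ∉ J → c (ix r i) = μ (ix r i) - w) ∧
        (∀ i : Fin 9, i ∈ J → 4 * (q : ℤ) * μ (il r) -
          4 * (q : ℤ) ^ 2 * (3 * (δ : ℤ) - ∑ i : Fin 9, (μ (ix r i) : ℤ)) - μ (ix r i) - w ≤
            c (ix r i)) ∧
        (2 * g + 1) * (μ (il r) : ℤ) -
          2 * g * (g + 1) * (3 * (δ : ℤ) - ∑ i : Fin 9, (μ (ix r i) : ℤ)) - w ≤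
            c (il r) ∧
        2 * (q : ℤ) * μ (il r) ≤
          2 * (q : ℤ) ^ 2 * (3 * (δ : ℤ) - ∑ i : Fin 9, (μ (ix r i) : ℤ)) + w ∧
        (2 * (q : ℤ) * μ (il r) =
          2 * (q : ℤ) ^ 2 * (3 * (δ : ℤ) - ∑ i : Fin 9, (μ (ix r i) : ℤ)) + w →
          ∀ i : Fin 9, 2 * (μ (ix r i) : ℤ) = w) := by
  classical
  obtain ⟨CD⟩ := exists_curveData2 (k := k) h2
  obtain ⟨K1, _, _, hK1, R, hR⟩ := exists_ext k r
  have h21 : (2 : K1) ≠ 0 := by
    intro h
    apply h2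
    apply (algebraMap k K1).injective
    rw [map_ofNat, map_zero, h]
  obtain ⟨φ, hφ, hφs⟩ := exists_ptMap k K1
  obtain ⟨p, pp, hIU⟩ := exists_indepU (k := k) h2 CD.E.T CD.E.T_two (B + bigB g q δ + 1) r
  have hI := hIU.indep
  obtain ⟨S, hSp, hSR⟩ := exists_setupU h21 P hP f hf δ hdeg μ hμ (B + bigB g q δ) R p CD.T_ns
    (by rw [← CD.T_eq]; exact hI) φ hφ hφs
  have hST : φ CD.E.T = S.CD.E.T := by
    rw [CD.T_eq, hφs, S.CD.T_eq]
    rw [Point.some.injEq]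
    exact ⟨map_zero _, map_zero _⟩
  have hBq : bigB 0 q δ ≤ B + bigB g q δ := by
    unfold bigB
    have h1 : 2 * 0 * (0 + 1) ≤ 2 * g * (g + 1) := by positivity
    have h3 : 2 * 0 * (0 + 1) * (4 * δ) ≤ 2 * g * (g + 1) * (4 * δ) := Nat.mul_le_mul_right _ h1
    omega
  have hBg : bigB g 0 δ ≤ B + bigB g q δ := by
    unfold bigB
    have h1 : 2 * 0 * (0 + 1) ≤ 2 * q * (q + 1) := by positivity
    have h3 : 2 * 0 * (0 + 1) * (4 * δ) ≤ 2 * q * (q + 1) * (4 * δ) := Nat.mul_le_mul_right _ h1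
    have h4 : (8 * 0 ^ 2 + 4) * (4 * δ) ≤ (8 * q ^ 2 + 4) * (4 * δ) := by
      apply Nat.mul_le_mul_right
      omega
    have h5 : 4 * 0 * (0 + 1) ≤ 4 * q * (q + 1) := by positivity
    have h6 : 8 * 0 ^ 3 * (0 + 1) ≤ 8 * q ^ 3 * (q + 1) := by positivity
    omega
  have hq2 : 2 * q ^ 2 ≤ B + bigB g q δ + 1 := by
    unfold bigB
    omega
  have hgg : g * (g + 1) ≤ B + bigB g q δ + 1 := by
    have h : g * (g + 1) ≤ 2 * g * (g + 1) := by
      rw [mul_assoc]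
      exact Nat.le_mul_of_pos_left _ (by norm_num)
    unfold bigB
    omega
  have hT0 : CD.E.T ≠ 0 := by
    rw [CD.T_eq]
    exact Point.some_ne_zero _
  -- the special points are not zero
  have hz9 : CD.E.T + ((g * (g + 1) : ℕ) : ℤ) • ∑ i, p i ≠ 0 := by
    intro h
    have h1 : ∑ i, ((g * (g + 1) : ℕ) : ℤ) • p i = (-1 : ℤ) • CD.E.T := by
      rw [← Finset.smul_sum, neg_smul, one_smul]
      exact (neg_eq_of_add_eq_zero_right h).symm
    have h3 := congrFun (hI (fun _ => ((g * (g + 1) : ℕ) : ℤ)) (fun i => by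
      rw [abs_of_nonneg (by positivity)]
      exact_mod_cast hgg) (-1) h1) 0
    have h4 : ((g * (g + 1) : ℕ) : ℤ) = 0 := h3
    rw [h4, zero_smul, add_zero] at h
    exact hT0 h
  have hzi : ∀ i, ((2 * q ^ 2 : ℕ) : ℤ) • ∑ l, p l - p i ≠ 0 := by
    intro i h
    have h1 : ∑ j : Fin 9, (((2 * q ^ 2 : ℕ) : ℤ) - if j = i then 1 else 0) • p j =
        (0 : ℤ) • CD.E.T := by
      simp only [sub_smul, Finset.sum_sub_distrib, ite_smul, one_smul, zero_smul,
        Finset.sum_ite_eq', Finset.mem_univ, if_true, ← Finset.smul_sum]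
      exact h
    have hq0 : 0 < 2 * q ^ 2 := by positivity
    have h3 := congrFun (hI _ (fun j => ?_) 0 h1) i
    · simp only [if_true, Pi.zero_apply] at h3
      have h5 : ((2 * q ^ 2 : ℕ) : ℤ) = 1 := by linarith
      have h6 : 2 * q ^ 2 = 1 := by exact_mod_cast h5
      omega
    · have h4 : (0 : ℤ) < (2 * q ^ 2 : ℕ) := by exact_mod_cast hq0
      have h5 : ((2 * q ^ 2 : ℕ) : ℤ) ≤ ((B + bigB g q δ + 1 : ℕ) : ℤ) := by exact_mod_cast hq2
      rw [abs_le]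
      split_ifs <;> constructor <;> linarith
  obtain ⟨za, zb, hzns, hzab⟩ := CoreU_coords hz9
  have hpp0 := hIU.ne_zero (by omega)
  choose qa qb hqns hqab using fun i => CoreU_coords (hpp0 i)
  -- the points
  obtain ⟨pt, hpt⟩ : ∃ pt : Fin 9 → (E0 k).Point, pt = fun i =>
    if i ∈ J then ((2 * q ^ 2 : ℕ) : ℤ) • ∑ l, p l - p i else p i := ⟨_, rfl⟩
  have hp0 := hI.ne_zero (by omega)
  have hpt0 : ∀ i, pt i ≠ 0 := by
    intro i
    rw [hpt]
    simp only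
    split_ifs
    · exact hzi i
    · exact hp0 i
  choose a b hns hpab using fun i => CoreU_coords (hpt0 i)
  obtain ⟨Z, hZdef⟩ : ∃ Z : Fin (10 + r) → Fin 2 → k,
    Z = mkU (fun i => ![a i, b i]) ![za, zb] (fun i => ![qa i, qb i]) := ⟨_, rfl⟩
  have hZ1 : ∀ i : Fin 9, Z (ix r i) = ![a i, b i] := by
    intro i
    rw [hZdef]
    exact mkU_ix _ _ _ _
  have hZ2 : Z (il r) = ![za, zb] := by
    rw [hZdef]
    exact mkU_il _ _ _
  have hZ3 : ∀ i : Fin r, Z (ip i) = ![qa i, qb i] := by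
    intro i
    rw [hZdef]
    exact mkU_ip _ _ _ _
  have hZ : ∀ i, (E0 k).Nonsingular (Z i 0) (Z i 1) := by
    refine ixU_cases _ (fun i => ?_) ?_ (fun i => ?_)
    · rw [hZ1]
      exact hns i
    · rw [hZ2]
      exact hzns
    · rw [hZ3]
      exact hqns i
  -- the multiplicities
  have hcM : ∀ i : Fin 9, ∃ c : ℕ,
      S.gg 0 ∈ ptIdeal (algebraMap k K1 (a i)) (algebraMap k K1 (b i)) ^ c ∧
      (i ∉ J → c = μ (ix r i) - S.w) ∧
      (i ∈ J → 4 * (q : ℤ) * μ (il r) -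
        4 * (q : ℤ) ^ 2 * (3 * (δ : ℤ) - ∑ i : Fin 9, (μ (ix r i) : ℤ)) - μ (ix r i) - S.w ≤
          c) := by
    intro i
    by_cases hi : i ∈ J
    · have h1 : (Point.some (a i) (b i) (hns i) : (E0 k).Point) =
          ((2 * q ^ 2 : ℕ) : ℤ) • ∑ l, p l - p i := by
        rw [← hpab i, hpt]
        simp only
        rw [if_pos hi]
      have h3 : (Point.some (algebraMap k K1 (a i)) (algebraMap k K1 (b i))
          (PtMap_nonsingular (hns i)) : (E0 K1).Point) =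
          ((2 * q ^ 2 : ℕ) : ℤ) • ∑ l, S.p l - S.p i := by
        rw [← hφs _ _ (hns i), h1, map_sub, map_zsmul, map_sum, hSp i]
        simp only [hSp]
      obtain ⟨c, hc1, hc2, -⟩ := S.endA h21 q hq hBq i _ h3
      exact ⟨c, hc1, fun h => absurd hi h, fun _ => hc2⟩
    · have h1 : (Point.some (a i) (b i) (hns i) : (E0 k).Point) = p i := by
        rw [← hpab i, hpt]
        simp only
        rw [if_neg hi]
      have h3 : (Point.some (algebraMap k K1 (a i)) (algebraMap k K1 (b i))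
          (PtMap_nonsingular (hns i)) : (E0 K1).Point) = S.p i := by
        rw [← hφs _ _ (hns i), h1, hSp i]
      rw [S.pab i] at h3
      have h4 := Point.some.inj h3
      refine ⟨μ (ix r i) - S.w, ?_, fun _ => rfl, fun h => absurd h hi⟩
      rw [h4.1, h4.2]
      exact S.gg0_mem h21 i
  choose c hc1 hc2 hc3 using hcM
  have hz9' : (Point.some (algebraMap k K1 za) (algebraMap k K1 zb)
      (PtMap_nonsingular hzns) : (E0 K1).Point) =
      S.CD.E.T + ((g * (g + 1) : ℕ) : ℤ) • ∑ i, S.p i := by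
    rw [← hφs _ _ hzns, ← hzab, map_add, map_zsmul, map_sum, hST]
    simp only [hSp]
  have h9 := S.end9 h21 g hBg _ hz9'
  obtain ⟨N9, hN9⟩ : ∃ N9 : ℕ, N9 = ((2 * g + 1) * (μ (il r) : ℤ) -
        2 * g * (g + 1) * (3 * (δ : ℤ) - ∑ i : Fin 9, (μ (ix r i) : ℤ)) - S.w).toNat := ⟨_, rfl⟩
  have h9' : S.gg 0 ∈ ptIdeal (algebraMap k K1 za) (algebraMap k K1 zb) ^ N9 := by
    rw [hN9]
    exact h9
  have hpass : ∀ i : Fin r, S.gg 0 ∈ ptIdeal (R i 0) (R i 1) ^ μ (ip i) := by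
    intro i
    refine colonU (Geq_generic R hR i) S.w _ ?_
    rw [← S.coeff0]
    exact hSR 0 i
  obtain ⟨g', hg'0, hg'd, hg'Z, hg'q⟩ := transferW (k := k) (K1 := K1)
    (Fin.snoc (α := fun _ => Fin 2 → k) (fun i => ![a i, b i]) ![za, zb]) R hR
    (S.gg 0).totalDegree (Fin.snoc (α := fun _ => ℕ) c N9) (fun i => μ (ip i)) (S.gg 0) S.gg0.1
    le_rfl (by
      intro i
      refine Fin.lastCases ?_ (fun i => ?_) i
      · rw [Fin.snoc_last, Fin.snoc_last]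
        exact h9'
      · rw [Fin.snoc_castSucc, Fin.snoc_castSucc]
        exact hc1 i) hpass (fun i => ![qa i, qb i])
  obtain ⟨cc, hcc⟩ : ∃ cc : Fin (10 + r) → ℕ, cc = mkU c N9 (fun i => μ (ip i)) := ⟨_, rfl⟩
  have hcc1 : ∀ i : Fin 9, cc (ix r i) = c i := by
    intro i
    rw [hcc]
    exact mkU_ix _ _ _ _
  have hcc2 : cc (il r) = N9 := by
    rw [hcc]
    exact mkU_il _ _ _
  have hcc3 : ∀ i : Fin r, cc (ip i) = μ (ip i) := by
    intro i
    rw [hcc]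
    exact mkU_ip _ _ _ _
  refine ⟨CD, p, pp, Z, hZ, hIU.mono (by omega), ?_, ?_, ?_, S.w, g', cc, hg'0, ?_, ?_, hcc3, ?_,
    ?_, ?_, S.sec h21 q hq hBq, fun h => S.sec_eq h21 q hq hBq h⟩
  · intro i
    rw [show (if i ∈ J then ((2 * q ^ 2 : ℕ) : ℤ) • ∑ l, p l - p i else p i) = pt i by
      rw [hpt], hpab i]
    exact CoreU_some _ _ (by rw [hZ1]; rfl) (by rw [hZ1]; rfl)
  · rw [hzab]
    exact CoreU_some _ _ (by rw [hZ2]; rfl) (by rw [hZ2]; rfl)
  · intro i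
    rw [hqab i]
    exact CoreU_some _ _ (by rw [hZ3]; rfl) (by rw [hZ3]; rfl)
  · have h := S.gg0.2
    omega
  · refine ixU_cases _ (fun i => ?_) ?_ (fun i => ?_)
    · rw [hZ1, hcc1]
      have h := hg'Z i.castSucc
      rw [Fin.snoc_castSucc, Fin.snoc_castSucc] at h
      exact h
    · rw [hZ2, hcc2]
      have h := hg'Z (Fin.last 9)
      rw [Fin.snoc_last, Fin.snoc_last] at h
      exact h
    · rw [hZ3, hcc3]
      exact hg'q i
  · intro i hi
    rw [hcc1]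
    exact hc2 i hi
  · intro i hi
    rw [hcc1]
    exact hc3 i hi
  · rw [hcc2, hN9]
    exact Int.self_le_toNat _

end ShghP
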