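import Pool.Agent.ShghR.EInt

/-!
# Intersection of a plane curve with the cubic, any number of points
-/

namespace ShghP

open MvPolynomial ShghE ShghR WeierstrassCurve WeierstrassCurve.Affine

variable {k : Type*} [Field k]

/-- Let `L` be not divisible by `Geq`, with multiplicities `≥ ν_i` at distinct affine points of the
curve. Then `Σ ν_i ≤ 3 deg L`, and in the case of equality `Σ ν_i • P_i = 0` in the group: the function
`psi L` has at `P_i` order `≥ ν_i` (`CD.aff`, `psi_mem`), it is regular on the affine curve and has at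
infinity order `≥ - 3 deg L` (`CD.inf`); use `E.deg`, `E.sum`. -/
theorem e_intU {ι : Type*} [Fintype ι] [DecidableEq k] (CD : CurveData k) (Z : ι → Fin 2 → k)
    (hZ : ∀ i, (E0 k).Nonsingular (Z i 0) (Z i 1)) (hZinj : Function.Injective Z)
    (L : MvPolynomial (Fin 2) k) (hL : ¬ Geq k ∣ L) (ν : ι → ℕ)
    (hν : ∀ i, L ∈ ptIdeal (Z i 0) (Z i 1) ^ ν i) :
    ∑ i, ν i ≤ 3 * L.totalDegree ∧
      (∑ i, ν i = 3 * L.totalDegree →
        ∑ i, (ν i : ℤ) • (Point.some (Z i 0) (Z i 1) (hZ i) : (E0 k).Point) = 0) := by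
  have halinj : Function.Injective (algebraMap (R0 k) (K0 k)) :=
    IsFractionRing.injective (R0 k) (K0 k)
  have hpsi : psi k L ≠ 0 := fun h => hL ((psi_eq_zero_iff L).mp h)
  obtain ⟨x, hx⟩ : ∃ x : K0 k, x = algebraMap (R0 k) (K0 k) (psi k L) := ⟨_, rfl⟩
  have hx0 : x ≠ 0 := by
    intro h
    apply hpsi
    apply halinj
    rw [← hx, h, map_zero]
  obtain ⟨p, hp⟩ : ∃ p : ι → (E0 k).Point, p = fun i => .some (Z i 0) (Z i 1) (hZ i) :=
    ⟨_, rfl⟩
  have hpi' : ∀ i, p i = .some (Z i 0) (Z i 1) (hZ i) := fun i => by rw [hp]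
  have hp0 : ∀ i, p i ≠ 0 := fun i => by rw [hpi']; exact Point.some_ne_zero _
  have hpi : Function.Injective p := by
    intro i j h
    apply hZinj
    rw [hpi', hpi'] at h
    have h1 := Point.some.inj h
    funext t
    fin_cases t
    · exact h1.1
    · exact h1.2
  obtain ⟨c, hc⟩ : ∃ c : (E0 k).Point → ℤ,
    c = EInt_divf (- (3 * (L.totalDegree : ℤ))) (fun i => (ν i : ℤ)) p := ⟨_, rfl⟩
  have hle : ∀ P, c P ≤ CD.E.v P x := by
    intro P
    rcases P with _ | ⟨a, b, hab⟩
    · have e1 : c Point.zero = - (3 * (L.totalDegree : ℤ)) := by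
        rw [hc]
        exact EInt_divf_zero _ _ _ hp0
      have e2 := CD.inf L hpsi
      rw [← hx] at e2
      rw [e1]
      have e3 : CD.E.v Point.zero x = CD.E.v 0 x := rfl
      rw [e3]
      linarith
    · by_cases hQ : ∃ i, (Point.some a b hab : (E0 k).Point) = p i
      · obtain ⟨i, hi⟩ := hQ
        rw [hi, hc, EInt_divf_apply _ _ _ hp0 hpi, hpi', hx]
        exact CD.aff (Z i 0) (Z i 1) (hZ i) (psi k L) (ν i) hpsi (psi_mem (hν i))
      · push Not at hQ
        have h0 : (Point.some a b hab : (E0 k).Point) ≠ 0 := Point.some_ne_zero _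
        rw [hc, EInt_divf_eq_zero _ _ _ h0 hQ, hx]
        have := CD.aff a b hab (psi k L) 0 hpsi (by simp)
        simpa using this
  have hvfin : (Function.support fun P => CD.E.v P x).Finite := CD.E.fin x hx0
  have hcfin : (Function.support c).Finite := by
    rw [hc]
    exact EInt_divf_fin _ _ _
  have hdsum : ∑ᶠ P, (CD.E.v P x - c P) = 3 * (L.totalDegree : ℤ) - ∑ i, (ν i : ℤ) := by
    rw [finsum_sub_distrib hvfin hcfin, CD.E.deg x hx0, hc, EInt_divf_sum]
    ring
  have hnn : ∀ P, 0 ≤ CD.E.v P x - c P := fun P => sub_nonneg.mpr (hle P)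
  have h1 : (0 : ℤ) ≤ 3 * (L.totalDegree : ℤ) - ∑ i, (ν i : ℤ) := by
    rw [← hdsum]
    exact finsum_nonneg hnn
  constructor
  · have h2 : ((∑ i, ν i : ℕ) : ℤ) ≤ ((3 * L.totalDegree : ℕ) : ℤ) := by
      push_cast
      linarith
    exact_mod_cast h2
  · intro heq
    have h2 : ∑ᶠ P, (CD.E.v P x - c P) = 0 := by
      rw [hdsum]
      have h3 : ((∑ i, ν i : ℕ) : ℤ) = ((3 * L.totalDegree : ℕ) : ℤ) := by rw [heq]
      push_cast at h3
      linarith
    have hdfin : (Function.support fun P => CD.E.v P x - c P).Finite := by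
      refine (hvfin.union hcfin).subset ?_
      intro P hP
      by_contra hcon
      simp only [Set.mem_union, Function.mem_support, not_or, not_not] at hcon
      apply hP
      simp only [hcon.1, hcon.2, sub_zero]
    have h3 : ∀ P, CD.E.v P x = c P := by
      intro P
      by_contra hcon
      rw [finsum_eq_sum _ hdfin] at h2
      have h4 := (Finset.sum_eq_zero_iff_of_nonneg (fun P _ => hnn P)).mp h2 P
        (by simpa [sub_eq_zero] using hcon)
      exact hcon (sub_eq_zero.mp h4)
    have h4 := CD.E.sum x hx0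
    have h5 : ∑ᶠ P, CD.E.v P x • P = ∑ᶠ P, c P • P := finsum_congr fun P => by rw [h3]
    rw [h5, hc, EInt_divf_sum_smul] at h4
    rw [← h4]
    refine Finset.sum_congr rfl fun i _ => ?_
    rw [hpi']

end ShghP
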