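import Pool.Agent.ShghP.StepU
import Pool.Agent.ShghM.MainMS

/-!
# The multi-cusp unfolding theorem for `10 + r` points
-/

namespace ShghP

open MvPolynomial ShghE ShghR ShghM

theorem MainU_sum {r : ℕ} (J : Finset (Fin 9)) (m : Fin (10 + r) → ℝ) (S : ℝ)
    (hS : S = ∑ i ∈ J, m (ix r i)) :
    ∑ i : Fin 9, sgnU J m i = ∑ i : Fin 9, m (ix r i) - 2 * S := by
  have h1 : ∀ i : Fin 9, sgnU J m i = m (ix r i) - (if i ∈ J then 2 * m (ix r i) else 0) := by
    intro i
    unfold sgnU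
    split_ifs <;> ring
  simp_rw [h1]
  rw [Finset.sum_sub_distrib, Finset.sum_ite_mem, Finset.univ_inter, ← Finset.mul_sum, hS]

/-- The data in the case `j ≠ 0`. -/
theorem MainU_data {r : ℕ} (d : ℝ) (m : Fin (10 + r) → ℝ) (hm : ∀ i, 0 ≤ m i)
    (hK : ∑ i, m i ≤ 3 * d) (J : Finset (Fin 9)) (j : ℤ) (hj : j ≠ 0) (e lam : ℝ)
    (he : e = 3 * d - ∑ i : Fin 9, sgnU J m i)
    (hlam : lam = 2 * j * (j * e + m (il r))) :
    ∃ (j' : ℕ) (σ : ℝ), 1 ≤ j' ∧ (σ = 1 ∨ σ = -1) ∧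
      lam = 2 * j' * (j' * (3 * d - ∑ i : Fin 9, sgnU J m i) + σ * m (il r)) ∧
      |m (il r) + 2 * (j : ℝ) * e| = σ * m (il r) + 2 * j' * e ∧
      4 * ∑ i ∈ J, m (ix r i) + 2 * ∑ l : Fin r, m (ip l) ≤ lam ∧
      e ≤ σ * m (il r) + 2 * j' * e ∧ 0 ≤ e := by
  have hn0 := hm (il r)
  have hK' := hK
  rw [ixU_sum] at hK'
  have hp0 : 0 ≤ ∑ l : Fin r, m (ip l) := Finset.sum_nonneg fun i _ => hm _
  obtain ⟨S, hS⟩ : ∃ S, S = ∑ i ∈ J, m (ix r i) := ⟨_, rfl⟩
  have hS0 : 0 ≤ S := by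
    rw [hS]
    exact Finset.sum_nonneg fun i _ => hm _
  have hsg : ∑ i : Fin 9, sgnU J m i = ∑ i : Fin 9, m (ix r i) - 2 * S := MainU_sum J m S hS
  have heS : e = 3 * d - ∑ i : Fin 9, m (ix r i) + 2 * S := by
    rw [he, hsg]
    ring
  have hne : m (il r) + 2 * S + ∑ l : Fin r, m (ip l) ≤ e := by linarith
  have he0 : 0 ≤ e := by linarith
  have hcase : ∃ (j' : ℕ) (σ : ℝ), 1 ≤ j' ∧ (σ = 1 ∨ σ = -1) ∧ (j : ℝ) = σ * j' := by
    obtain ⟨j', hj'⟩ := j.eq_nat_or_neg
    have h0 : 1 ≤ j' := by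
      rcases Nat.eq_zero_or_pos j' with h0 | h0
      · exfalso
        subst h0
        simp at hj'
        exact hj hj'
      · exact h0
    rcases hj' with h | h
    · refine ⟨j', 1, h0, Or.inl rfl, ?_⟩
      rw [h]
      push_cast
      ring
    · refine ⟨j', -1, h0, Or.inr rfl, ?_⟩
      rw [h]
      push_cast
      ring
  obtain ⟨j', σ, hj', hσ, hjσ⟩ := hcase
  have hσ2 : σ * σ = 1 := by
    rcases hσ with h | h <;> rw [h] <;> norm_num
  have hj1 : (1 : ℝ) ≤ j' := by exact_mod_cast hj'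
  have hlam' : lam = 2 * j' * (j' * (3 * d - ∑ i : Fin 9, sgnU J m i) +
      σ * m (il r)) := by
    rw [hlam, hjσ, ← he]
    linear_combination (2 * (j' : ℝ) ^ 2 * e) * hσ2
  have hσn : -m (il r) ≤ σ * m (il r) := by
    rcases hσ with h | h <;> rw [h] <;> linarith
  have hje : e ≤ j' * e := le_mul_of_one_le_left he0 hj1
  have hlam0 : 4 * S + 2 * ∑ l : Fin r, m (ip l) ≤ lam := by
    rw [hlam', ← he]
    have h1 : 2 * S + ∑ l : Fin r, m (ip l) ≤ j' * e + σ * m (il r) := by linarith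
    have h3 : 0 ≤ j' * e + σ * m (il r) := by linarith
    have h4 : 2 * (j' * e + σ * m (il r)) ≤ 2 * j' * (j' * e + σ * m (il r)) :=
      mul_le_mul_of_nonneg_right (by linarith) h3
    linarith
  have hpos9 : e ≤ σ * m (il r) + 2 * j' * e := by linarith
  have habs : |m (il r) + 2 * (j : ℝ) * e| = σ * m (il r) + 2 * j' * e := by
    rw [← abs_of_nonneg (he0.trans hpos9)]
    rw [hjσ]
    rcases hσ with h | h
    · rw [h]
      congr 1
      ring
    · rw [h, ← abs_neg]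
      congr 1
      ring
  exact ⟨j', σ, hj', hσ, hlam', habs, by rw [← hS]; exact hlam0, hpos9, he0⟩

/-- The unfolding theorem for `10 + r` points. -/
theorem unfoldingU.{u} {k : Type u} [Field k] [IsAlgClosed k] (h2 : (2 : k) ≠ 0) {r : ℕ}
    (P : Fin (10 + r) → Fin 2 → k)
    (hP : AlgebraicIndependent (⊥ : Subfield k) (fun ij : Fin (10 + r) × Fin 2 => P ij.1 ij.2))
    (d : ℝ) (m : Fin (10 + r) → ℝ) (hm : ∀ i, 0 ≤ m i) (hK : ∑ i, m i ≤ 3 * d)
    (hN : NumNefS d m)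
    (J : Finset (Fin 9)) (j : ℤ) (hJ : J = ∅ ∨ j ≠ 0) (e lam : ℝ)
    (he : e = 3 * d - ∑ i : Fin 9, sgnU J m i)
    (hlam : lam = 2 * j * (j * e + m (il r)))
    (M : Fin (10 + r) → ℝ) (hM : ∀ i : Fin 9, M (ix r i) = lam + sgnU J m i)
    (hM9 : M (il r) = |m (il r) + 2 * j * e|) (hMp : ∀ l : Fin r, M (ip l) = m (ip l)) :
    IsNefS P (d + 3 * lam) M := by
  by_cases hj0 : j = 0
  · have hJ0 : J = ∅ := hJ.resolve_right (fun h => h hj0)
    have hl0 : lam = 0 := by rw [hlam, hj0]; simp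
    have hMm : M = m := by
      funext i
      refine ixU_cases (fun i => M i = m i) (fun i => ?_) ?_ hMp i
      · rw [hM, hl0, zero_add, sgnU, hJ0, if_neg (Finset.notMem_empty i)]
      · rw [hM9, hj0, Int.cast_zero, mul_zero, zero_mul, add_zero, abs_of_nonneg (hm _)]
    rw [hl0, hMm, mul_zero, add_zero]
    exact unfoldU_zero h2 P hP d m hm hK hN
  · obtain ⟨j', σ, hj', hσ, hlam', habs, hlam0, hpos9, he0⟩ :=
      MainU_data d m hm hK J j hj0 e lam he hlam
    have hp0 : 0 ≤ ∑ l : Fin r, m (ip l) := Finset.sum_nonneg fun i _ => hm _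
    have hS0 : 0 ≤ ∑ i ∈ J, m (ix r i) := Finset.sum_nonneg fun i _ => hm _
    have hM0 : ∀ i, 0 ≤ M i := by
      refine ixU_cases _ (fun i => ?_) ?_ (fun l => ?_)
      · rw [hM, sgnU]
        split_ifs with hi
        · have h1 : m (ix r i) ≤ ∑ i ∈ J, m (ix r i) :=
            Finset.single_le_sum (f := fun i : Fin 9 => m (ix r i)) (fun i _ => hm _) hi
          linarith
        · linarith [hm (ix r i)]
      · rw [hM9]
        exact abs_nonneg _
      · rw [hMp]
        exact hm _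
    refine ⟨hM0, fun f δ μ hf hδ hμ => ?_⟩
    rcases Nat.eq_zero_or_pos δ with hδ0 | hδ1
    · have h1 : ∀ i, μ i = 0 := by
        intro i
        have h3 := ShghE.le_totalDegree hf (hμ i)
        omega
      simp only [h1, hδ0, Nat.cast_zero, mul_zero, Finset.sum_const_zero, le_refl]
    · obtain ⟨w, hw, key⟩ := unfoldU_pos h2 P hP d m hm hK hN J j' hj' σ hσ f hf δ hδ1 hδ μ hμ
        _ lam rfl hlam'
      have h3 : 0 ≤ 3 * d - ∑ i : Fin 9, m (ix r i) - m (il r) := by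
        rw [ixU_sum] at hK
        linarith
      have h4 := mul_nonneg h3 (sub_nonneg.2 hw.le)
      rw [← he] at key
      rw [ixU_sum, hM9, habs]
      simp only [hM, hMp]
      linarith

/-- Strictness. -/
theorem unfoldingU_strict.{u} {k : Type u} [Field k] [IsAlgClosed k] (h2 : (2 : k) ≠ 0) {r : ℕ}
    (P : Fin (10 + r) → Fin 2 → k)
    (hP : AlgebraicIndependent (⊥ : Subfield k) (fun ij : Fin (10 + r) × Fin 2 => P ij.1 ij.2))
    (d : ℝ) (m : Fin (10 + r) → ℝ) (hm : ∀ i, 0 ≤ m i) (hK : ∑ i, m i ≤ 3 * d)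
    (hN : NumNefS d m)
    (J : Finset (Fin 9)) (j : ℤ) (hJ : J = ∅ ∨ j ≠ 0) (e lam : ℝ)
    (he : e = 3 * d - ∑ i : Fin 9, sgnU J m i)
    (hlam : lam = 2 * j * (j * e + m (il r)))
    (hpos : e < |m (il r) + 2 * j * e| + ∑ l : Fin r, m (ip l))
    (M : Fin (10 + r) → ℝ) (hM : ∀ i : Fin 9, M (ix r i) = lam + sgnU J m i)
    (hM9 : M (il r) = |m (il r) + 2 * j * e|) (hMp : ∀ l : Fin r, M (ip l) = m (ip l)) :
    (∀ i : Fin 9, 0 < M (ix r i)) ∧ 0 < M (il r) ∧
    ∀ (f : MvPolynomial (Fin 2) k) (δ : ℕ) (μ : Fin (10 + r) → ℕ), f ≠ 0 → 1 ≤ δ →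
      f.totalDegree ≤ δ → (∀ i, f ∈ ptIdeal (P i 0) (P i 1) ^ μ i) →
      ∑ i, M i * μ i < (d + 3 * lam) * δ := by
  have hp0 : 0 ≤ ∑ l : Fin r, m (ip l) := Finset.sum_nonneg fun i _ => hm _
  have hn0 := hm (il r)
  have hS0 : 0 ≤ ∑ i ∈ J, m (ix r i) := Finset.sum_nonneg fun i _ => hm _
  have hK' := hK
  rw [ixU_sum] at hK'
  have hj0 : j ≠ 0 := by
    rintro rfl
    have hJ0 : J = ∅ := hJ.resolve_right (fun h => h rfl)
    have hsg := MainU_sum J m _ rfl
    rw [hJ0, Finset.sum_empty] at hsg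
    rw [Int.cast_zero, mul_zero, zero_mul, add_zero, abs_of_nonneg hn0] at hpos
    rw [he, hJ0, hsg] at hpos
    linarith
  obtain ⟨j', σ, hj', hσ, hlam', habs, hlam0, hpos9, he0⟩ :=
    MainU_data d m hm hK J j hj0 e lam he hlam
  by_cases hE : 3 * d - ∑ i : Fin 9, m (ix r i) - m (il r) = 0
  · -- all passive multiplicities vanish: the theorem for ten points
    have hpz : ∑ l : Fin r, m (ip l) = 0 := by linarith
    have hpz' : ∀ l : Fin r, m (ip l) = 0 := fun l =>
      (Finset.sum_eq_zero_iff_of_nonneg (fun i _ => hm _)).1 hpz l (Finset.mem_univ l)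
    obtain ⟨m10, hm10⟩ : ∃ m10 : Fin 10 → ℝ, m10 = fun i => m (Fin.castAdd r i) := ⟨_, rfl⟩
    have hmi : ∀ i : Fin 9, m10 i.castSucc = m (ix r i) := fun i => by rw [hm10]; rfl
    have hml : m10 (Fin.last 9) = m (il r) := by rw [hm10]; rfl
    have hsgi : ∀ i : Fin 9, sgnm J m10 i = sgnU J m i := fun i => by rw [hm10]; rfl
    have hP10 : AlgebraicIndependent (⊥ : Subfield k)
        (fun ij : Fin 10 × Fin 2 => (fun i => P (Fin.castAdd r i)) ij.1 ij.2) :=
      hP.comp (fun ij : Fin 10 × Fin 2 => (Fin.castAdd r ij.1, ij.2)) (by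
        intro a b h
        rw [Prod.mk.injEq] at h
        exact Prod.ext (Fin.castAdd_injective _ _ h.1) h.2)
    have hN10 : NumNef d m10 := by
      intro a ν hν
      have h := hN a (Fin.append ν (fun _ : Fin r => 0)) (by
        rw [Fin.sum_univ_add]
        simpa [Fin.append_left, Fin.append_right] using hν)
      rw [Fin.sum_univ_add] at h
      simp only [Fin.append_left, Fin.append_right, Nat.cast_zero, mul_zero,
        Finset.sum_const_zero, add_zero] at h
      rw [hm10]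
      exact h
    have h10 := unfoldingM_strict h2 (fun i => P (Fin.castAdd r i)) hP10 d m10
      (fun i => by rw [hm10]; exact hm _) (by
        rw [Fin.sum_univ_castSucc, hml]
        simp only [hmi]
        linarith) hN10 J j hJ e lam (by
        rw [he]
        simp only [hsgi]) (by rw [hlam, hml]) (by rw [hml]; linarith)
      (fun i => M (Fin.castAdd r i)) (fun i => by rw [hsgi]; exact hM i) (by
        rw [hml]
        exact hM9)
    refine ⟨fun i => h10.1 _, h10.1 _, fun f δ μ hf hδ1 hδ hμ => ?_⟩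
    have h := h10.2 f δ (fun i => μ (Fin.castAdd r i)) hf hδ1 hδ (fun i => hμ _)
    rw [Fin.sum_univ_add]
    have h0 : ∑ l : Fin r, M (Fin.natAdd 10 l) * (μ (Fin.natAdd 10 l) : ℝ) = 0 :=
      Finset.sum_eq_zero fun l _ => by
        have h3 := hMp l
        rw [hpz' l] at h3
        have h4 : M (Fin.natAdd 10 l) = 0 := h3
        rw [h4, zero_mul]
    rw [h0, add_zero]
    exact h
  · have hEpos : 0 < 3 * d - ∑ i : Fin 9, m (ix r i) - m (il r) := by
      rcases lt_or_eq_of_le (show 0 ≤ 3 * d - ∑ i : Fin 9, m (ix r i) - m (il r) by linarith)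
        with h | h
      · exact h
      · exact absurd h.symm hE
    have hsg := MainU_sum J m _ rfl
    have hepos : m (il r) + 2 * ∑ i ∈ J, m (ix r i) < e := by
      rw [he, hsg]
      linarith
    have hj1 : (1 : ℝ) ≤ j' := by exact_mod_cast hj'
    have hσn : -m (il r) ≤ σ * m (il r) := by
      rcases hσ with h | h <;> rw [h] <;> linarith
    have hlampos : 4 * ∑ i ∈ J, m (ix r i) < lam := by
      rw [hlam', ← he]
      have hje : e ≤ j' * e := le_mul_of_one_le_left he0 hj1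
      have h1 : 2 * ∑ i ∈ J, m (ix r i) < j' * e + σ * m (il r) := by linarith
      have h4 : 2 * (j' * e + σ * m (il r)) ≤ 2 * j' * (j' * e + σ * m (il r)) :=
        mul_le_mul_of_nonneg_right (by linarith) (by linarith)
      linarith
    refine ⟨fun i => ?_, ?_, fun f δ μ hf hδ1 hδ hμ => ?_⟩
    · rw [hM, sgnU]
      split_ifs with hi
      · have h1 : m (ix r i) ≤ ∑ i ∈ J, m (ix r i) :=
          Finset.single_le_sum (f := fun i : Fin 9 => m (ix r i)) (fun i _ => hm _) hi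
        linarith
      · linarith [hm (ix r i)]
    · rw [hM9, habs]
      linarith
    · obtain ⟨w, hw, key⟩ := unfoldU_pos h2 P hP d m hm hK hN J j' hj' σ hσ f hf δ hδ1 hδ μ hμ
        _ lam rfl hlam'
      have h4 := mul_pos hEpos (sub_pos.2 hw)
      rw [← he] at key
      rw [ixU_sum, hM9, habs]
      simp only [hM, hMp]
      linarith

end ShghP
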