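import Pool.Agent.ShghP.SpecU
import Pool.Agent.ShghR.NefSpec

/-!
# Nefness in the special position
-/

namespace ShghP

open MvPolynomial ShghE ShghR WeierstrassCurve WeierstrassCurve.Affine

variable {k : Type*} [Field k]

private theorem NefSpecU_irr [IsAlgClosed k] [DecidableEq k] (h2 : (2 : k) ≠ 0) (CD : CurveData k)
    {r : ℕ} (p : Fin 9 → (E0 k).Point) (pp : Fin r → (E0 k).Point) (N1 N2 B : ℕ) (hN1 : 2 ≤ N1) (J : Finset (Fin 9))
    (hI : IndepU p pp CD.E.T B) (Z : Fin (10 + r) → Fin 2 → k)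
    (hZ : ∀ i, (E0 k).Nonsingular (Z i 0) (Z i 1)) (hZinj : Function.Injective Z)
    (hp : ∀ i : Fin 9, (Point.some (Z (ix r i) 0) (Z (ix r i) 1) (hZ (ix r i)) :
      (E0 k).Point) = if i ∈ J then (N1 : ℤ) • ∑ l, p l - p i else p i)
    (hz : (Point.some (Z (il r) 0) (Z (il r) 1) (hZ (il r)) : (E0 k).Point) =
      CD.E.T + (N2 : ℤ) • ∑ i, p i)
    (hpp : ∀ i : Fin r, (Point.some (Z (ip i) 0) (Z (ip i) 1) (hZ (ip i)) : (E0 k).Point) =
      pp i)
    (d : ℝ) (m : Fin (10 + r) → ℝ) (hm : ∀ i, 0 ≤ m i) (hK : ∑ i, m i ≤ 3 * d) (hN : NumNefS d m)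
    (L : MvPolynomial (Fin 2) k) (hirr : Irreducible L)
    (hB : (9 * N1 + N2 + 1) * L.totalDegree ≤ B) (ν : Fin (10 + r) → ℕ)
    (hν : ∀ i, L ∈ ptIdeal (Z i 0) (Z i 1) ^ ν i) :
    ∑ i, m i * ν i ≤ d * L.totalDegree := by
  by_cases hG : Geq k ∣ L
  · obtain ⟨u, hu⟩ := hG
    have hGu : ¬ IsUnit (Geq k) := by
      intro h
      have h1 := (MvPolynomial.isUnit_iff_totalDegree_of_isReduced.1 h).2
      have h3 := totalDegree_Geq_pow_mul (k := k) 1 (g := 1) one_ne_zero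
      simp at h3
      omega
    have huu : IsUnit u := (hirr.isUnit_or_isUnit hu).resolve_left hGu
    have hu0 : u.totalDegree = 0 := (MvPolynomial.isUnit_iff_totalDegree_of_isReduced.1 huu).2
    have hdeg : L.totalDegree = 3 := by
      have h3 := totalDegree_Geq_pow_mul (k := k) 1 (g := u) huu.ne_zero
      rw [pow_one, ← hu, hu0] at h3
      simpa using h3
    have h1 : ∀ i, ν i ≤ 1 := by
      intro i
      have h3 := colon (k := k) h2 (eq_of_nonsingular (hZ i)) 1 (ν i) (g := u)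
        (by rw [pow_one, ← hu]; exact hν i)
      have h4 := ShghE.le_totalDegree huu.ne_zero h3
      omega
    rw [hdeg]
    have h5 : ∑ i, m i * (ν i : ℝ) ≤ ∑ i, m i := by
      apply Finset.sum_le_sum
      intro i _
      have h6 : (ν i : ℝ) ≤ 1 := by exact_mod_cast h1 i
      nlinarith [hm i]
    push_cast
    linarith
  · have h1 := special_kappaU CD p pp N1 N2 B hN1 J hI Z hZ hZinj hp hz hpp L hirr hG hB ν hν
    have h3 := genus Z hZinj ν L hirr hν
    apply hN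
    have h4 : ∑ i, (ν i : ℤ) * (ν i + 1) = ∑ i, (ν i : ℤ) * (ν i - 1) + 2 * ∑ i, (ν i : ℤ) := by
      rw [Finset.mul_sum, ← Finset.sum_add_distrib]
      apply Finset.sum_congr rfl
      intro i _
      ring
    have h5 : (∑ i, (ν i : ℤ)) + 1 ≤ 3 * L.totalDegree := by exact_mod_cast h1
    have h6 : ∑ i, (ν i : ℤ) * (ν i + 1) < ((L.totalDegree : ℤ) + 1) * (L.totalDegree + 2) := by
      rw [h4]
      nlinarith
    exact_mod_cast h6

/-- Copy of `ShghR.nef_spec` (and its private lemma `NefSpec_irr`) with `special_injU`, `special_kappaU`. -/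
theorem nef_specU [IsAlgClosed k] [DecidableEq k] (h2 : (2 : k) ≠ 0) (CD : CurveData k)
    {r : ℕ} (p : Fin 9 → (E0 k).Point) (pp : Fin r → (E0 k).Point) (N1 N2 B : ℕ) (hN1 : 2 ≤ N1) (J : Finset (Fin 9))
    (hI : IndepU p pp CD.E.T B) (Z : Fin (10 + r) → Fin 2 → k)
    (hZ : ∀ i, (E0 k).Nonsingular (Z i 0) (Z i 1))
    (hp : ∀ i : Fin 9, (Point.some (Z (ix r i) 0) (Z (ix r i) 1) (hZ (ix r i)) :
      (E0 k).Point) = if i ∈ J then (N1 : ℤ) • ∑ l, p l - p i else p i)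
    (hz : (Point.some (Z (il r) 0) (Z (il r) 1) (hZ (il r)) : (E0 k).Point) =
      CD.E.T + (N2 : ℤ) • ∑ i, p i)
    (hpp : ∀ i : Fin r, (Point.some (Z (ip i) 0) (Z (ip i) 1) (hZ (ip i)) : (E0 k).Point) =
      pp i)
    (d : ℝ) (m : Fin (10 + r) → ℝ) (hm : ∀ i, 0 ≤ m i) (hK : ∑ i, m i ≤ 3 * d) (hN : NumNefS d m)
    (f : MvPolynomial (Fin 2) k) (hf : f ≠ 0) (δ : ℕ) (hδ : f.totalDegree ≤ δ)
    (hB : (9 * N1 + N2 + 1) * (δ + 1) ≤ B) (μ : Fin (10 + r) → ℕ)
    (hμ : ∀ i, f ∈ ptIdeal (Z i 0) (Z i 1) ^ μ i) :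
    ∑ i, m i * μ i ≤ d * δ := by
  have hB1 : N1 + N2 + 1 ≤ B := by nlinarith
  have hZinj := special_injU CD p pp N1 N2 B hN1 J hI hB1 Z hZ hp hz hpp
  have hd : 0 ≤ d := by
    have : 0 ≤ ∑ i, m i := Finset.sum_nonneg fun i _ => hm i
    linarith
  have key : ∀ f : MvPolynomial (Fin 2) k, f ≠ 0 → (9 * N1 + N2 + 1) * f.totalDegree ≤ B →
      ∀ μ : Fin (10 + r) → ℕ, (∀ i, f ∈ ptIdeal (Z i 0) (Z i 1) ^ μ i) →
      ∑ i, m i * μ i ≤ d * f.totalDegree := by
    intro f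
    induction f using WfDvdMonoid.induction_on_irreducible with
    | zero => intro h; exact absurd rfl h
    | unit u hu =>
      intro hu1 _ μ hμ
      have hu0 : u.totalDegree = 0 := (MvPolynomial.isUnit_iff_totalDegree_of_isReduced.1 hu).2
      have h1 : ∀ i, μ i = 0 := by
        intro i
        have := ShghE.le_totalDegree hu1 (hμ i)
        omega
      simp [h1, hu0]
    | mul a q ha hq ih =>
      intro _ hB μ hμ
      have hdeg : (q * a).totalDegree = q.totalDegree + a.totalDegree :=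
        totalDegree_mul_of_isDomain hq.ne_zero ha
      have hsp := fun i => mem_split (Z i 0) (Z i 1) (hμ i)
      choose m1 m2 h1 h3 h4 using hsp
      rw [hdeg] at hB
      have hq1 := NefSpecU_irr h2 CD p pp N1 N2 B hN1 J hI Z hZ hZinj hp hz hpp d m hm hK hN q hq
        (le_trans (Nat.mul_le_mul_left _ (by omega)) hB) m1 h3
      have ha1 := ih ha (le_trans (Nat.mul_le_mul_left _ (by omega)) hB) m2 h4
      rw [hdeg]
      have h5 : ∑ i, m i * (μ i : ℝ) ≤ ∑ i, m i * (m1 i : ℝ) + ∑ i, m i * (m2 i : ℝ) := by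
        rw [← Finset.sum_add_distrib]
        apply Finset.sum_le_sum
        intro i _
        have h6 : (μ i : ℝ) ≤ m1 i + m2 i := by exact_mod_cast h1 i
        nlinarith [hm i]
      push_cast
      nlinarith
  have h1 := key f hf (le_trans (Nat.mul_le_mul_left _ (by omega)) hB) μ hμ
  have h3 : (f.totalDegree : ℝ) ≤ δ := by exact_mod_cast hδ
  nlinarith

end ShghP
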