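import Pool.Agent.ShghP.EIntU
import Pool.Agent.ShghP.IndepU
import Pool.Agent.ShghM.SpecM

/-!
# The special position

`9 + r` points `p_i`, `q_l` of the cubic, independent up to `B`; the special points are `p_i` (`i ∉ J`),
`N1 σ - p_i` (`i ∈ J`), `T + N2 σ`, `σ = Σ p_l`, `N1 ≥ 2`, and `q_l`.
-/

namespace ShghP

open MvPolynomial ShghE ShghR ShghM WeierstrassCurve WeierstrassCurve.Affine

variable {k : Type*} [Field k]

private theorem SpecU_some {a b a' b' : k} (h : (E0 k).Nonsingular a b)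
    (h' : (E0 k).Nonsingular a' b') (ea : a = a') (eb : b = b') :
    (Point.some a b h : (E0 k).Point) = Point.some a' b' h' := by
  subst ea eb
  rfl

/-- The points are distinct. -/
theorem special_injU [DecidableEq k] (CD : CurveData k) {r : ℕ} (p : Fin 9 → (E0 k).Point)
    (pp : Fin r → (E0 k).Point) (N1 N2 B : ℕ)
    (hN1 : 2 ≤ N1) (J : Finset (Fin 9)) (hI : IndepU p pp CD.E.T B) (hB : N1 + N2 + 1 ≤ B)
    (Z : Fin (10 + r) → Fin 2 → k) (hZ : ∀ i, (E0 k).Nonsingular (Z i 0) (Z i 1))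
    (hp : ∀ i : Fin 9, (Point.some (Z (ix r i) 0) (Z (ix r i) 1) (hZ (ix r i)) :
      (E0 k).Point) = if i ∈ J then (N1 : ℤ) • ∑ l, p l - p i else p i)
    (hz : (Point.some (Z (il r) 0) (Z (il r) 1) (hZ (il r)) : (E0 k).Point) =
      CD.E.T + (N2 : ℤ) • ∑ i, p i)
    (hpp : ∀ i : Fin r, (Point.some (Z (ip i) 0) (Z (ip i) 1) (hZ (ip i)) : (E0 k).Point) =
      pp i) :
    Function.Injective Z := by
  have h10 := special_injM CD p N1 N2 B hN1 J hI.indep hB (fun i => Z (Fin.castAdd r i))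
    (fun i => hZ _) hp hz
  have hBZ : (N1 : ℤ) + N2 + 1 ≤ B := by exact_mod_cast hB
  have hN1Z : (2 : ℤ) ≤ N1 := by exact_mod_cast hN1
  have hN2Z : (0 : ℤ) ≤ N2 := Int.natCast_nonneg _
  have hsingle : ∀ (i : Fin r) (a : ℤ), ∑ l, (Pi.single i a : Fin r → ℤ) l • pp l = a • pp i := by
    intro i a
    rw [Finset.sum_eq_single i]
    · rw [Pi.single_eq_same]
    · intro l _ hl
      rw [Pi.single_eq_of_ne hl, zero_smul]
    · intro h
      exact absurd (Finset.mem_univ i) h
  -- a passive point is not an active point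
  have key : ∀ (i : Fin r) (c : Fin 9 → ℤ) (ε : ℤ), (∀ l, |c l| ≤ B) →
      pp i ≠ ∑ l, c l • p l + ε • CD.E.T := by
    intro i c ε hc h
    have h1 := (hI (fun l => - c l) (Pi.single i 1) (fun l => by rw [abs_neg]; exact hc l)
      (fun l => ?_) ε ?_).2
    · have h3 := congrFun h1 i
      rw [Pi.single_eq_same, Pi.zero_apply] at h3
      exact one_ne_zero h3
    · by_cases hl : l = i
      · subst hl
        rw [Pi.single_eq_same, abs_one]
        linarith
      · rw [Pi.single_eq_of_ne hl, abs_zero]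
        positivity
    · rw [hsingle, one_smul, h]
      simp only [neg_smul, Finset.sum_neg_distrib]
      abel
  have hpa : ∀ (i : Fin r) (j : Fin 10), Z (ip i) ≠ Z (Fin.castAdd r j) := by
    intro i j h
    have h1 := hpp i
    have h3 : (Point.some (Z (ip i) 0) (Z (ip i) 1) (hZ (ip i)) : (E0 k).Point) =
        Point.some (Z (Fin.castAdd r j) 0) (Z (Fin.castAdd r j) 1) (hZ _) :=
      SpecU_some _ _ (by rw [h]) (by rw [h])
    rw [h3] at h1
    revert h1 h3 h
    refine Fin.lastCases ?_ (fun j => ?_) j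
    · intro h h1 h3
      refine key i (fun _ => (N2 : ℤ)) 1 (fun l => ?_) ?_
      · rw [abs_of_nonneg hN2Z]
        linarith
      · rw [← h1, ← Finset.smul_sum, one_smul, add_comm]
        exact hz
    · intro h h1 h3
      refine key i (fun l => SpecM_n J N1 j + if l = j then SpecM_s J j else 0) 0 (fun l => ?_) ?_
      · have e1 := SpecM_n_nonneg J N1 j
        have e2 := SpecM_n_le J N1 j
        rw [abs_le]
        rcases SpecM_s_cases J j with h5 | h5 <;> rw [h5] <;> split_ifs <;>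
          constructor <;> linarith
      · rw [← h1, zero_smul, add_zero]
        simp only [add_smul, Finset.sum_add_distrib]
        rw [← Finset.smul_sum, SpecM_single, ← SpecM_rep]
        exact hp j
  have hpq : ∀ i j : Fin r, Z (ip i) = Z (ip j) → i = j := by
    intro i j h
    by_contra hij
    have h1 : pp i = pp j := by
      rw [← hpp i, ← hpp j]
      exact SpecU_some _ _ (by rw [h]) (by rw [h])
    have h3 := (hI 0 (Pi.single i 1 - Pi.single j 1) (fun l => by simp) (fun l => ?_) 0 ?_).2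
    · have h4 := congrFun h3 i
      simp [hij] at h4
    · have hB1 : (1 : ℤ) ≤ B := by linarith
      by_cases hl : l = i
      · subst hl
        simpa [Pi.single_apply, hij] using hB1
      · by_cases hl' : l = j
        · subst hl'
          simpa [Pi.single_apply, hl] using hB1
        · simp [hl, hl']
    · simp only [Pi.sub_apply, sub_smul, Finset.sum_sub_distrib, hsingle, Pi.zero_apply, zero_smul,
        Finset.sum_const_zero, zero_add, h1, sub_self]
  intro a b
  refine Fin.addCases (fun i => ?_) (fun i => ?_) a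
  · refine Fin.addCases (fun j => ?_) (fun j => ?_) b
    · intro h
      rw [h10 h]
    · intro h
      exact absurd h.symm (hpa j i)
  · refine Fin.addCases (fun j => ?_) (fun j => ?_) b
    · intro h
      exact absurd h (hpa i j)
    · intro h
      rw [hpq i j h]

/-- An irreducible polynomial `L`, not associated to `Geq`, satisfies `Σ ν_i + 1 ≤ 3 deg L`. -/
theorem special_kappaU [DecidableEq k] (CD : CurveData k) {r : ℕ} (p : Fin 9 → (E0 k).Point)
    (pp : Fin r → (E0 k).Point) (N1 N2 B : ℕ)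
    (hN1 : 2 ≤ N1) (J : Finset (Fin 9)) (hI : IndepU p pp CD.E.T B)
    (Z : Fin (10 + r) → Fin 2 → k) (hZ : ∀ i, (E0 k).Nonsingular (Z i 0) (Z i 1))
    (hZinj : Function.Injective Z)
    (hp : ∀ i : Fin 9, (Point.some (Z (ix r i) 0) (Z (ix r i) 1) (hZ (ix r i)) :
      (E0 k).Point) = if i ∈ J then (N1 : ℤ) • ∑ l, p l - p i else p i)
    (hz : (Point.some (Z (il r) 0) (Z (il r) 1) (hZ (il r)) : (E0 k).Point) =
      CD.E.T + (N2 : ℤ) • ∑ i, p i)
    (hpp : ∀ i : Fin r, (Point.some (Z (ip i) 0) (Z (ip i) 1) (hZ (ip i)) : (E0 k).Point) =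
      pp i)
    (L : MvPolynomial (Fin 2) k) (hirr : Irreducible L) (hL : ¬ Geq k ∣ L)
    (hB : (9 * N1 + N2 + 1) * L.totalDegree ≤ B) (ν : Fin (10 + r) → ℕ)
    (hν : ∀ i, L ∈ ptIdeal (Z i 0) (Z i 1) ^ ν i) :
    ∑ i, ν i + 1 ≤ 3 * L.totalDegree := by
  obtain ⟨h1, h2⟩ := e_intU CD Z hZ hZinj L hL ν hν
  by_contra hcon
  have heq : ∑ i, ν i = 3 * L.totalDegree := by omega
  have h3 := h2 heq
  have hL0 : L ≠ 0 := hirr.ne_zero
  have hνd : ∀ i, ν i ≤ L.totalDegree := fun i => le_totalDegree hL0 (hν i)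
  have hBB : L.totalDegree ≤ B := le_trans (Nat.le_mul_of_pos_left _ (by omega)) hB
  obtain ⟨X, hX⟩ : ∃ X : ℤ, X = ∑ i : Fin 9, (ν (ix r i) : ℤ) * SpecM_n J N1 i +
      (ν (il r) : ℤ) * N2 := ⟨_, rfl⟩
  have hX1 : 0 ≤ ∑ i : Fin 9, (ν (ix r i) : ℤ) * SpecM_n J N1 i :=
    Finset.sum_nonneg fun i _ => mul_nonneg (Int.natCast_nonneg _) (SpecM_n_nonneg J N1 i)
  have hX2 : (0 : ℤ) ≤ (ν (il r) : ℤ) * N2 := by positivity
  have hX0 : 0 ≤ X := by rw [hX]; linarith
  rw [ixU_sum, hz] at h3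
  have h4 : ∑ l : Fin 9, (X + SpecM_s J l * (ν (ix r l) : ℤ)) • p l +
      ∑ l : Fin r, (ν (ip l) : ℤ) • pp l = (-(ν (il r) : ℤ)) • CD.E.T := by
    have h5 : ∑ i : Fin 9, (ν (ix r i) : ℤ) • (Point.some (Z (ix r i) 0) (Z (ix r i) 1)
        (hZ (ix r i)) : (E0 k).Point) =
        (∑ i : Fin 9, (ν (ix r i) : ℤ) * SpecM_n J N1 i) • ∑ l, p l +
          ∑ i : Fin 9, (SpecM_s J i * (ν (ix r i) : ℤ)) • p i := by
      rw [Finset.sum_smul, ← Finset.sum_add_distrib]
      refine Finset.sum_congr rfl fun i _ => ?_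
      rw [hp i, SpecM_rep, smul_add, mul_smul, mul_comm (SpecM_s J i), mul_smul]
    have h6 : ∑ i : Fin r, (ν (ip i) : ℤ) • (Point.some (Z (ip i) 0) (Z (ip i) 1)
        (hZ (ip i)) : (E0 k).Point) = ∑ l : Fin r, (ν (ip l) : ℤ) • pp l :=
      Finset.sum_congr rfl fun i _ => by rw [hpp i]
    rw [h5, h6, smul_add, smul_smul] at h3
    simp only [add_smul, Finset.sum_add_distrib]
    rw [← Finset.smul_sum, hX, add_smul, neg_smul, eq_neg_iff_add_eq_zero, ← h3]
    abel
  have h6 := hI _ _ ?_ ?_ _ h4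
  · have h6' : ∀ l : Fin 9, X + SpecM_s J l * (ν (ix r l) : ℤ) = 0 := fun l => congrFun h6.1 l
    have h6'' : ∀ l : Fin r, ν (ip l) = 0 := fun l => by
      have h := congrFun h6.2 l
      simpa using h
    have hν0 : ∀ l : Fin 9, (0 : ℤ) ≤ (ν (ix r l) : ℤ) := fun l => Int.natCast_nonneg _
    have h7 : X = 0 := by
      have e0 := h6' 0
      by_cases h0 : (0 : Fin 9) ∈ J
      · have e1 : SpecM_s J 0 = -1 := if_pos h0
        have e2 : SpecM_n J N1 0 = N1 := if_pos h0
        have e3 : (ν (ix r 0) : ℤ) * SpecM_n J N1 0 ≤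
            ∑ i : Fin 9, (ν (ix r i) : ℤ) * SpecM_n J N1 i :=
          Finset.single_le_sum (f := fun i : Fin 9 => (ν (ix r i) : ℤ) * SpecM_n J N1 i)
            (fun i _ => mul_nonneg (Int.natCast_nonneg _) (SpecM_n_nonneg J N1 i))
            (Finset.mem_univ 0)
        rw [e1] at e0
        rw [e2] at e3
        have e4 : (2 : ℤ) ≤ N1 := by exact_mod_cast hN1
        have e5 := hν0 0
        have e6 : (ν (ix r 0) : ℤ) * 2 ≤ ν (ix r 0) * N1 :=
          mul_le_mul_of_nonneg_left e4 e5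
        linarith
      · have e1 : SpecM_s J 0 = 1 := if_neg h0
        rw [e1, one_mul] at e0
        linarith [hν0 0]
    have h8 : ∀ l : Fin 9, ν (ix r l) = 0 := by
      intro l
      have e0 := h6' l
      rw [h7] at e0
      rcases SpecM_s_cases J l with h | h <;> rw [h] at e0 <;> omega
    rw [ixU_sum, Finset.sum_eq_zero (fun i _ => h8 i), zero_add,
      Finset.sum_eq_zero (fun i _ => h6'' i), add_zero] at heq
    have h9 := hνd (il r)
    have h10 : L.totalDegree = 0 := by omega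
    rw [totalDegree_eq_zero_iff_eq_C] at h10
    apply hirr.not_isUnit
    rw [h10]
    refine IsUnit.map C (isUnit_iff_ne_zero.mpr ?_)
    intro h
    rw [h, map_zero] at h10
    exact hL0 h10
  · intro l
    have hd : ∀ i, (ν i : ℤ) ≤ L.totalDegree := fun i => by exact_mod_cast hνd i
    have e1 : ∑ i : Fin 9, (ν (ix r i) : ℤ) * SpecM_n J N1 i ≤
        9 * (L.totalDegree * N1) := by
      calc ∑ i : Fin 9, (ν (ix r i) : ℤ) * SpecM_n J N1 i
          ≤ ∑ _i : Fin 9, (L.totalDegree : ℤ) * N1 :=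
            Finset.sum_le_sum fun i _ => mul_le_mul (hd _) (SpecM_n_le J N1 i)
              (SpecM_n_nonneg J N1 i) (Int.natCast_nonneg _)
        _ = 9 * (L.totalDegree * N1) := by
            rw [Finset.sum_const, Finset.card_univ, Fintype.card_fin, nsmul_eq_mul]
            push_cast
            ring
    have e2 : (ν (il r) : ℤ) * N2 ≤ L.totalDegree * N2 :=
      mul_le_mul_of_nonneg_right (hd _) (Int.natCast_nonneg _)
    have e3 : ((9 * N1 + N2 + 1 : ℕ) : ℤ) * L.totalDegree ≤ B := by exact_mod_cast hB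
    push_cast at e3
    have e4 := hd (ix r l)
    have e5 : (0 : ℤ) ≤ ν (ix r l) := Int.natCast_nonneg _
    rw [abs_le]
    rcases SpecM_s_cases J l with h | h <;> rw [h] <;> constructor <;> nlinarith
  · intro l
    rw [abs_of_nonneg (Int.natCast_nonneg _)]
    exact_mod_cast (hνd _).trans hBB

end ShghP
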