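import Pool.Agent.ShghP.CoreU
import Pool.Agent.ShghP.NefU
import Pool.Agent.ShghM.PosM

/-!
# The multi-cusp unfolding theorem for `10 + r` points: the step and the excess terms
-/

namespace ShghP

open MvPolynomial ShghE ShghR ShghM

/-- The step. -/
theorem unfoldU_step.{u} {k : Type u} [Field k] [IsAlgClosed k] (h2 : (2 : k) ≠ 0) {r : ℕ}
    (P : Fin (10 + r) → Fin 2 → k)
    (hP : AlgebraicIndependent (⊥ : Subfield k) (fun ij : Fin (10 + r) × Fin 2 => P ij.1 ij.2))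
    (d : ℝ) (m : Fin (10 + r) → ℝ) (hm : ∀ i, 0 ≤ m i) (hK : ∑ i, m i ≤ 3 * d)
    (hN : NumNefS d m) (J : Finset (Fin 9)) (g q : ℕ) (hq : 1 ≤ q)
    (f : MvPolynomial (Fin 2) k) (hf : f ≠ 0) (δ : ℕ) (hδ1 : 1 ≤ δ) (hδ : f.totalDegree ≤ δ)
    (μ : Fin (10 + r) → ℕ) (hμ : ∀ i, f ∈ ptIdeal (P i 0) (P i 1) ^ μ i) :
    ∃ (w : ℕ) (c : Fin (10 + r) → ℕ), 3 * w ≤ δ ∧
      ∑ i, m i * (c i : ℝ) ≤ d * (δ - 3 * w) ∧
      (∀ i, c (ip i) = μ (ip i)) ∧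
      (∀ i : Fin 9, i ∉ J → c (ix r i) = μ (ix r i) - w) ∧
      (∀ i : Fin 9, i ∈ J → 4 * (q : ℤ) * μ (il r) -
        4 * (q : ℤ) ^ 2 * (3 * (δ : ℤ) - ∑ i : Fin 9, (μ (ix r i) : ℤ)) - μ (ix r i) - w ≤
          c (ix r i)) ∧
      (2 * g + 1) * (μ (il r) : ℤ) -
        2 * g * (g + 1) * (3 * (δ : ℤ) - ∑ i : Fin 9, (μ (ix r i) : ℤ)) - w ≤
          c (il r) ∧
      2 * (q : ℤ) * μ (il r) <
        2 * (q : ℤ) ^ 2 * (3 * (δ : ℤ) - ∑ i : Fin 9, (μ (ix r i) : ℤ)) + w := by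
  classical
  obtain ⟨CD, p, pp, Z, hZ, hI, hp, hz, hpp, w, g0, c, hg0, hdeg, hc, hcp, hcJ, hcJ', hc9, hsec,
    hE1⟩ := coreU h2 P hP f hf δ hδ μ hμ J g q hq ((9 * (2 * q ^ 2) + g * (g + 1) + 1) * (δ + 1))
  have hq2 : 1 ≤ q ^ 2 := Nat.one_le_pow _ _ hq
  have hn := nef_specU h2 CD.toCurveData p pp (2 * q ^ 2) (g * (g + 1))
    ((9 * (2 * q ^ 2) + g * (g + 1) + 1) * (δ + 1)) (by omega) J hI Z hZ hp hz hpp d m hm hK hN
    g0 hg0 g0.totalDegree le_rfl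
    (Nat.mul_le_mul_left _ (by omega)) c hc
  have hd0 : 0 ≤ d := by
    have h1 : 0 ≤ ∑ i, m i := Finset.sum_nonneg fun i _ => hm _
    linarith
  have hdeg' : d * (g0.totalDegree : ℝ) ≤ d * (δ - 3 * w) := by
    apply mul_le_mul_of_nonneg_left _ hd0
    have h1 : ((g0.totalDegree + 3 * w : ℕ) : ℝ) ≤ (δ : ℝ) := by exact_mod_cast hdeg
    push_cast at h1
    linarith
  have hw : 3 * w ≤ δ := by omega
  refine ⟨w, c, hw, hn.trans hdeg', hcp, hcJ, hcJ', hc9, lt_of_le_of_ne hsec ?_⟩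
  intro heq
  have hμδ : μ (il r) ≤ δ := (ShghE.le_totalDegree hf (hμ (il r))).trans hδ
  exact UnfoldS_arith q δ w (μ (il r)) _ (fun i => (μ (ix r i) : ℤ))
    (by exact_mod_cast hq) (by exact_mod_cast hδ1) (by exact_mod_cast hw)
    (by exact_mod_cast hμδ) (hE1 heq) rfl heq

/-- The class `D` itself: `j = 0`. -/
theorem unfoldU_zero.{u} {k : Type u} [Field k] [IsAlgClosed k] (h2 : (2 : k) ≠ 0) {r : ℕ}
    (P : Fin (10 + r) → Fin 2 → k)
    (hP : AlgebraicIndependent (⊥ : Subfield k) (fun ij : Fin (10 + r) × Fin 2 => P ij.1 ij.2))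
    (d : ℝ) (m : Fin (10 + r) → ℝ) (hm : ∀ i, 0 ≤ m i) (hK : ∑ i, m i ≤ 3 * d)
    (hN : NumNefS d m) : IsNefS P d m := by
  refine ⟨hm, fun f δ μ hf hδ hμ => ?_⟩
  rcases Nat.eq_zero_or_pos δ with hδ0 | hδ1
  · have h1 : ∀ i, μ i = 0 := by
      intro i
      have h3 := ShghE.le_totalDegree hf (hμ i)
      omega
    simp only [h1, hδ0, Nat.cast_zero, mul_zero, Finset.sum_const_zero, le_refl]
  · obtain ⟨w, c, h3w, hA, hcp, hcn, -, hcl, -⟩ :=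
      unfoldU_step h2 P hP d m hm hK hN ∅ 0 1 le_rfl f hf δ hδ1 hδ μ hμ
    have e1 : ∀ i : Fin 9, m (ix r i) * (μ (ix r i) : ℝ) ≤
        m (ix r i) * (c (ix r i) : ℝ) + m (ix r i) * w := by
      intro i
      rw [← mul_add]
      apply mul_le_mul_of_nonneg_left _ (hm _)
      rw [hcn i (Finset.notMem_empty i)]
      have h3 : μ (ix r i) ≤ (μ (ix r i) - w) + w := by omega
      exact_mod_cast h3
    have e2 : m (il r) * (μ (il r) : ℝ) ≤ m (il r) * (c (il r) : ℝ) + m (il r) * w := by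
      rw [← mul_add]
      apply mul_le_mul_of_nonneg_left _ (hm _)
      have h3 : (μ (il r) : ℤ) ≤ c (il r) + w := by
        simp only [Nat.cast_zero, mul_zero, zero_add, one_mul, zero_mul, sub_zero] at hcl
        linarith
      exact_mod_cast h3
    have e3 : ∑ i : Fin 9, m (ix r i) * (μ (ix r i) : ℝ) ≤
        ∑ i : Fin 9, m (ix r i) * (c (ix r i) : ℝ) + (∑ i : Fin 9, m (ix r i)) * w := by
      rw [Finset.sum_mul, ← Finset.sum_add_distrib]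
      exact Finset.sum_le_sum fun i _ => e1 i
    have e4 : (∑ i : Fin 9, m (ix r i) + m (il r)) * w ≤ 3 * d * w := by
      apply mul_le_mul_of_nonneg_right _ (Nat.cast_nonneg _)
      rw [ixU_sum] at hK
      have h5 : 0 ≤ ∑ l : Fin r, m (ip l) := Finset.sum_nonneg fun i _ => hm _
      linarith
    rw [ixU_sum] at hA ⊢
    simp only [hcp] at hA
    linarith

/-- The inequality of nefness with the excess term `(e - n)(w - κ)`, `κ < w`. -/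
theorem unfoldU_pos.{u} {k : Type u} [Field k] [IsAlgClosed k] (h2 : (2 : k) ≠ 0) {r : ℕ}
    (P : Fin (10 + r) → Fin 2 → k)
    (hP : AlgebraicIndependent (⊥ : Subfield k) (fun ij : Fin (10 + r) × Fin 2 => P ij.1 ij.2))
    (d : ℝ) (m : Fin (10 + r) → ℝ) (hm : ∀ i, 0 ≤ m i) (hK : ∑ i, m i ≤ 3 * d)
    (hN : NumNefS d m)
    (J : Finset (Fin 9)) (j : ℕ) (hj : 1 ≤ j) (σ : ℝ) (hσ : σ = 1 ∨ σ = -1)
    (f : MvPolynomial (Fin 2) k) (hf : f ≠ 0) (δ : ℕ) (hδ1 : 1 ≤ δ) (hδ : f.totalDegree ≤ δ)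
    (μ : Fin (10 + r) → ℕ) (hμ : ∀ i, f ∈ ptIdeal (P i 0) (P i 1) ^ μ i)
    (κ lam : ℝ)
    (hκ : κ = 2 * j * (μ (il r) - j * (3 * (δ : ℝ) - ∑ i : Fin 9, (μ (ix r i) : ℝ))))
    (hlam : lam = 2 * j * (j * (3 * d - ∑ i : Fin 9, sgnU J m i) + σ * m (il r))) :
    ∃ w : ℕ, κ < w ∧
      ∑ i : Fin 9, (lam + sgnU J m i) * μ (ix r i) +
          (σ * m (il r) + 2 * j * (3 * d - ∑ i : Fin 9, sgnU J m i)) * μ (il r) +
          ∑ l : Fin r, m (ip l) * μ (ip l) +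
        (3 * d - ∑ i : Fin 9, m (ix r i) - m (il r)) * (w - κ) ≤ (d + 3 * lam) * δ := by
  obtain ⟨g, hg⟩ := PosM_g j hj σ hσ
  have hσ2 : σ ^ 2 = 1 := by
    rcases hσ with h | h <;> rw [h] <;> norm_num
  obtain ⟨w, c, h3w, hA, hcp, hcn, hcJ, hcl, hstr⟩ :=
    unfoldU_step h2 P hP d m hm hK hN J g j hj f hf δ hδ1 hδ μ hμ
  have hcJ' : ∀ i : Fin 9, i ∈ J → 2 * κ - μ (ix r i) - w ≤ (c (ix r i) : ℝ) := by
    intro i hi
    have h := hcJ i hi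
    have h' : 4 * (j : ℝ) * μ (il r) -
        4 * (j : ℝ) ^ 2 * (3 * (δ : ℝ) - ∑ i : Fin 9, (μ (ix r i) : ℝ)) - μ (ix r i) - w ≤
          c (ix r i) := by exact_mod_cast h
    rw [hκ]
    linarith
  have hcl' : (2 * (g : ℝ) + 1) * (μ (il r) : ℝ) -
        2 * g * (g + 1) * (3 * (δ : ℝ) - ∑ i : Fin 9, (μ (ix r i) : ℝ)) - w ≤
          c (il r) := by exact_mod_cast hcl
  have hstr' : 2 * (j : ℝ) * μ (il r) <
        2 * (j : ℝ) ^ 2 * (3 * (δ : ℝ) - ∑ i : Fin 9, (μ (ix r i) : ℝ)) + w := by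
    exact_mod_cast hstr
  refine ⟨w, ?_, ?_⟩
  · rw [hκ]
    linarith
  · have hn : 0 ≤ m (il r) := hm _
    have hmul := mul_nonneg hn (sub_nonneg.2 hcl')
    obtain ⟨m10, hm10⟩ : ∃ m10 : Fin 10 → ℝ, m10 = fun i => m (Fin.castAdd r i) := ⟨_, rfl⟩
    have hmi : ∀ i : Fin 9, m (ix r i) = m10 i.castSucc := fun i => by rw [hm10]; rfl
    have hsgi : ∀ i : Fin 9, sgnU J m i = sgnm J m10 i := fun i => by rw [hm10]; rfl
    have hS := PosM_sum J m10 κ w (fun i => (c (ix r i) : ℝ)) (fun i => (μ (ix r i) : ℝ))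
    have hS0 : 0 ≤ ∑ i : Fin 9, (if i ∈ J then m10 i.castSucc * ((c (ix r i) : ℝ) -
        (2 * κ - μ (ix r i) - w))
          else m10 i.castSucc * ((c (ix r i) : ℝ) - ((μ (ix r i) : ℝ) - w))) := by
      refine Finset.sum_nonneg fun i _ => ?_
      split_ifs with hi
      · refine mul_nonneg ?_ (by linarith [hcJ' i hi])
        rw [← hmi]
        exact hm _
      · refine mul_nonneg ?_ ?_
        · rw [← hmi]
          exact hm _
        · rw [hcn i hi]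
          have h3 : μ (ix r i) ≤ (μ (ix r i) - w) + w := by omega
          have h4 : (μ (ix r i) : ℝ) ≤ ((μ (ix r i) - w : ℕ) : ℝ) + w := by exact_mod_cast h3
          linarith
    have hsg := PosM_sgn J m10
    have har := arithM σ hσ2 j g (d * δ - ∑ i : Fin 9, sgnm J m10 i * μ (ix r i))
      (3 * d - ∑ i : Fin 9, m10 i.castSucc) (m (il r)) w (μ (il r))
      (3 * (δ : ℝ) - ∑ i : Fin 9, (μ (ix r i) : ℝ)) (c (il r)) lam
      (∑ i : Fin 9, (if i ∈ J then m10 i.castSucc else 0)) hg (by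
        rw [hlam]; simp only [hsgi]; rw [hsg]; ring)
    rw [ixU_sum] at hA
    simp only [hcp] at hA
    have e1 : ∑ i : Fin 9, (lam + sgnm J m10 i) * (μ (ix r i) : ℝ) =
        lam * ∑ i : Fin 9, (μ (ix r i) : ℝ) + ∑ i : Fin 9, sgnm J m10 i * μ (ix r i) := by
      rw [Finset.mul_sum, ← Finset.sum_add_distrib]
      exact Finset.sum_congr rfl fun i _ => by ring
    simp only [hsgi, hmi] at hA ⊢
    rw [e1, hsg]
    rw [← hκ] at har
    rw [hS] at hS0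
    linarith [har, hA, hmul]

end ShghP
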